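import Mathlib

/-! A weighted form of the book inequality of Khadziivanov and Nikiforov, and a weighted edge
bound for bipartite forests. -/

namespace Pool.Agent.H255Z.WO

open Finset

theorem sum_cyc {P : Type*} [Fintype P] (F : P → P → P → ℝ) :
    ∑ p, ∑ q, ∑ r, F p q r = ∑ p, ∑ q, ∑ r, F q r p := by
  symm
  rw [Finset.sum_comm]
  refine Finset.sum_congr rfl fun q _ => ?_
  rw [Finset.sum_comm]

theorem book {P : Type*} [Fintype P] (w : P → ℝ) (hw : ∀ p, 0 ≤ w p) (A : P → P → ℝ)
    (hA : ∀ p q, A p q = 0 ∨ A p q = 1) (hs : ∀ p q, A p q = A q p) (B : P → P → ℝ)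
    (hB0 : ∀ p q, 0 ≤ B p q)
    (hB : ∀ p q, (∑ u, w u) / 6 < ∑ u, w u * (A u p * A u q) → 1 ≤ B p q) :
    2 * (∑ p, ∑ q, w p * w q * A p q) ^ 2 - (∑ u, w u) ^ 2 * (∑ p, ∑ q, w p * w q * A p q)
      ≤ 6 * (∑ u, w u) ^ 2 * ∑ p, ∑ q, w p * w q * A p q * B p q := by
  set S := ∑ u, w u with hS
  set d := ∑ p, ∑ q, w p * w q * A p q with hd
  set β := ∑ p, ∑ q, w p * w q * A p q * B p q with hβ
  have hA0 : ∀ p q, 0 ≤ A p q := fun p q => by rcases hA p q with h | h <;> simp [h]
  have hS0 : 0 ≤ S := Finset.sum_nonneg fun u _ => hw u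
  let deg : P → ℝ := fun p => ∑ u, w u * A u p
  let c : P → P → ℝ := fun p q => ∑ u, w u * (A u p * A u q)
  let g : P → P → ℝ := fun p q => ∑ u, w u * (1 - A u p - A u q + 2 * (A u p * A u q))
  have hg : ∀ p q, g p q = S - deg p - deg q + 2 * c p q := by
    intro p q
    simp only [g, deg, c, hS, Finset.mul_sum, ← Finset.sum_sub_distrib, ← Finset.sum_add_distrib]
    exact Finset.sum_congr rfl fun u _ => by ring
  have hg0 : ∀ p q, 0 ≤ g p q := fun p q => Finset.sum_nonneg fun u _ => mul_nonneg (hw u) (by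
    rcases hA u p with h | h <;> rcases hA u q with h' | h' <;> norm_num [h, h'])
  have hgS : ∀ p q, g p q ≤ S := fun p q => Finset.sum_le_sum fun u _ => by
    have := hw u
    rcases hA u p with h | h <;> rcases hA u q with h' | h' <;> rw [h, h'] <;> linarith
  have hc0 : ∀ p q, 0 ≤ c p q := fun p q => Finset.sum_nonneg fun u _ =>
    mul_nonneg (hw u) (mul_nonneg (hA0 _ _) (hA0 _ _))
  have hcS : ∀ p q, c p q ≤ S := fun p q => Finset.sum_le_sum fun u _ => by
    have := hw u
    rcases hA u p with h | h <;> rcases hA u q with h' | h' <;> rw [h, h'] <;> linarith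
  have hg3 : ∀ p q r, S ≤ g p q + g q r + g r p := by
    intro p q r
    simp only [g, hS, ← Finset.sum_add_distrib]
    refine Finset.sum_le_sum fun u _ => ?_
    have := hw u
    rcases hA u p with h | h <;> rcases hA u q with h' | h' <;> rcases hA u r with h'' | h'' <;>
      rw [h, h', h''] <;> linarith
  let t : P → P → P → ℝ := fun p q r => w p * w q * w r * (A p q * A q r * A r p)
  have ht0 : ∀ p q r, 0 ≤ t p q r := fun p q r =>
    mul_nonneg (mul_nonneg (mul_nonneg (hw _) (hw _)) (hw _))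
      (mul_nonneg (mul_nonneg (hA0 _ _) (hA0 _ _)) (hA0 _ _))
  have htc : ∀ p q r, t q r p = t p q r := fun p q r => by simp only [t]; ring
  set T := ∑ p, ∑ q, w p * w q * A p q * c p q with hT
  set X := ∑ p, ∑ q, w p * w q * A p q * (c p q * g p q) with hX
  have hT' : T = ∑ p, ∑ q, ∑ r, t p q r := by
    refine Finset.sum_congr rfl fun p _ => Finset.sum_congr rfl fun q _ => ?_
    simp only [c, t, Finset.mul_sum]
    refine Finset.sum_congr rfl fun r _ => ?_
    rw [hs r q]; ring
  have hX1 : X = ∑ p, ∑ q, ∑ r, t p q r * g p q := by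
    refine Finset.sum_congr rfl fun p _ => Finset.sum_congr rfl fun q _ => ?_
    rw [← Finset.sum_mul]
    have : ∑ r, t p q r = w p * w q * A p q * c p q := by
      simp only [c, t, Finset.mul_sum]
      refine Finset.sum_congr rfl fun r _ => ?_
      rw [hs r q]; ring
    rw [this]; ring
  have hX2 : X = ∑ p, ∑ q, ∑ r, t p q r * g q r := by
    rw [hX1, sum_cyc]
    simp only [htc]
  have hX3 : X = ∑ p, ∑ q, ∑ r, t p q r * g r p := by
    rw [hX2, sum_cyc]
    simp only [htc]
  have h3X : S * T ≤ 3 * X := by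
    have e : 3 * X = X + X + X := by ring
    rw [e]
    nth_rewrite 1 [hX1]
    nth_rewrite 1 [hX2]
    nth_rewrite 1 [hX3]
    rw [hT']
    simp only [Finset.mul_sum, ← Finset.sum_add_distrib]
    refine Finset.sum_le_sum fun p _ => Finset.sum_le_sum fun q _ =>
      Finset.sum_le_sum fun r _ => ?_
    have := mul_le_mul_of_nonneg_left (hg3 p q r) (ht0 p q r)
    linarith
  set Q := ∑ p, w p * deg p ^ 2 with hQ
  have hdd : d = ∑ p, w p * deg p := by
    refine Finset.sum_congr rfl fun p _ => ?_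
    simp only [deg, Finset.mul_sum]
    refine Finset.sum_congr rfl fun q _ => ?_
    rw [hs q p]; ring
  have hQ1 : ∑ p, ∑ q, w p * w q * A p q * deg p = Q := by
    refine Finset.sum_congr rfl fun p _ => ?_
    rw [← Finset.sum_mul]
    have : ∑ q, w p * w q * A p q = w p * deg p := by
      simp only [deg, Finset.mul_sum]
      refine Finset.sum_congr rfl fun q _ => ?_
      rw [hs q p]; ring
    rw [this]; ring
  have hQ2 : ∑ p, ∑ q, w p * w q * A p q * deg q = Q := by
    rw [Finset.sum_comm, ← hQ1]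
    refine Finset.sum_congr rfl fun p _ => Finset.sum_congr rfl fun q _ => ?_
    rw [hs q p]; ring
  have hG : ∑ p, ∑ q, w p * w q * A p q * g p q = S * d - 2 * Q + 2 * T := by
    have e : S * d - 2 * Q + 2 * T = S * d - Q - Q + 2 * T := by ring
    rw [e]
    nth_rewrite 1 [← hQ1]
    rw [← hQ2, hd, hT]
    simp only [Finset.mul_sum, ← Finset.sum_add_distrib, ← Finset.sum_sub_distrib]
    refine Finset.sum_congr rfl fun p _ => Finset.sum_congr rfl fun q _ => ?_
    rw [hg]; ring
  have hXle : X ≤ S / 6 * (S * d - 2 * Q + 2 * T) + S ^ 2 * β := by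
    rw [← hG, hX, hβ]
    simp only [Finset.mul_sum, ← Finset.sum_add_distrib]
    refine Finset.sum_le_sum fun p _ => Finset.sum_le_sum fun q _ => ?_
    have h0 : 0 ≤ w p * w q * A p q := mul_nonneg (mul_nonneg (hw _) (hw _)) (hA0 _ _)
    have h1 : c p q * g p q ≤ S / 6 * g p q + S ^ 2 * B p q := by
      by_cases hc : S / 6 < c p q
      · have h2 := hB p q hc
        have h3 : c p q * g p q ≤ S * S := mul_le_mul (hcS p q) (hgS p q) (hg0 p q) hS0
        have h4 : 0 ≤ S / 6 * g p q := mul_nonneg (by linarith) (hg0 p q)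
        nlinarith [sq_nonneg S]
      · push Not at hc
        have h3 := mul_le_mul_of_nonneg_right hc (hg0 p q)
        have h4 : 0 ≤ S ^ 2 * B p q := mul_nonneg (sq_nonneg S) (hB0 p q)
        linarith
    have := mul_le_mul_of_nonneg_left h1 h0
    linarith
  have hCS : d ^ 2 ≤ S * Q := by
    rw [hdd, hS, hQ]
    have := Finset.sum_sq_le_sum_mul_sum_of_sq_le_mul (Finset.univ : Finset P)
      (r := fun p => w p * deg p) (f := fun p => w p) (g := fun p => w p * deg p ^ 2)
      (fun p _ => hw p) (fun p _ => mul_nonneg (hw p) (sq_nonneg _)) (fun p _ => le_of_eq (by ring))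
    exact this
  nlinarith

theorem forest {V : Type*} [DecidableEq V] (x : V → ℝ) (hx : ∀ v, 0 ≤ x v) (M1 M2 : ℝ)
    (hM1 : 0 ≤ M1) (hM2 : 0 ≤ M2) (R : Finset (V × V))
    (h1 : ∀ e ∈ R, x e.1 ≤ M1) (h2 : ∀ e ∈ R, x e.2 ≤ M2)
    (hR : ∀ R' ⊆ R, R'.Nonempty →
      ∃ e ∈ R', (∀ e' ∈ R', e'.1 = e.1 → e' = e) ∨ (∀ e' ∈ R', e'.2 = e.2 → e' = e)) :
    ∑ e ∈ R, x e.1 * x e.2 ≤
      M2 * ∑ v ∈ R.image Prod.fst, x v + M1 * ∑ v ∈ R.image Prod.snd, x v := by
  induction R using Finset.strongInduction with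
  | H R ih =>
    rcases R.eq_empty_or_nonempty with rfl | hne
    · simp
    obtain ⟨e, he, hdeg⟩ := hR R (subset_refl _) hne
    have ih' := ih (R.erase e) (Finset.erase_ssubset he)
      (fun e' h => h1 e' (Finset.mem_of_mem_erase h)) (fun e' h => h2 e' (Finset.mem_of_mem_erase h))
      (fun R' h => hR R' (h.trans (Finset.erase_subset _ _)))
    rw [← Finset.add_sum_erase R _ he]
    have s1 : ∑ v ∈ (R.erase e).image Prod.fst, x v ≤ ∑ v ∈ R.image Prod.fst, x v :=
      Finset.sum_le_sum_of_subset_of_nonneg (Finset.image_subset_image (Finset.erase_subset _ _))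
        fun v _ _ => hx v
    have s2 : ∑ v ∈ (R.erase e).image Prod.snd, x v ≤ ∑ v ∈ R.image Prod.snd, x v :=
      Finset.sum_le_sum_of_subset_of_nonneg (Finset.image_subset_image (Finset.erase_subset _ _))
        fun v _ _ => hx v
    rcases hdeg with hdeg | hdeg
    · have hn : e.1 ∉ (R.erase e).image Prod.fst := by
        rw [Finset.mem_image]
        rintro ⟨e', he', h⟩
        exact (Finset.ne_of_mem_erase he') (hdeg e' (Finset.mem_of_mem_erase he') h)
      have s3 : x e.1 + ∑ v ∈ (R.erase e).image Prod.fst, x v ≤ ∑ v ∈ R.image Prod.fst, x v := by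
        rw [← Finset.sum_insert hn]
        refine Finset.sum_le_sum_of_subset_of_nonneg ?_ fun v _ _ => hx v
        exact Finset.insert_subset (Finset.mem_image_of_mem _ he)
          (Finset.image_subset_image (Finset.erase_subset _ _))
      have s4 := mul_le_mul_of_nonneg_left (h2 e he) (hx e.1)
      have s5 := mul_le_mul_of_nonneg_left s3 hM2
      have s6 := mul_le_mul_of_nonneg_left s2 hM1
      nlinarith
    · have hn : e.2 ∉ (R.erase e).image Prod.snd := by
        rw [Finset.mem_image]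
        rintro ⟨e', he', h⟩
        exact (Finset.ne_of_mem_erase he') (hdeg e' (Finset.mem_of_mem_erase he') h)
      have s3 : x e.2 + ∑ v ∈ (R.erase e).image Prod.snd, x v ≤ ∑ v ∈ R.image Prod.snd, x v := by
        rw [← Finset.sum_insert hn]
        refine Finset.sum_le_sum_of_subset_of_nonneg ?_ fun v _ _ => hx v
        exact Finset.insert_subset (Finset.mem_image_of_mem _ he)
          (Finset.image_subset_image (Finset.erase_subset _ _))
      have s4 := mul_le_mul_of_nonneg_right (h1 e he) (hx e.2)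
      have s5 := mul_le_mul_of_nonneg_left s3 hM1
      have s6 := mul_le_mul_of_nonneg_left s1 hM2
      nlinarith

theorem exists_periodic {α : Type*} [Fintype α] [Nonempty α] (f : α → α) (K : ℕ)
    (hK : Fintype.card α ≤ K) : ∃ y, f^[K.factorial] y = y := by
  classical
  obtain ⟨y0⟩ := ‹Nonempty α›
  obtain ⟨i, j, hij, h⟩ := Fintype.exists_ne_map_eq_of_card_lt
    (fun i : Fin (K + 1) => f^[i.val] y0) (by simp; omega)
  wlog hlt : i.val < j.val generalizing i j
  · have hne : i.val ≠ j.val := fun h' => hij (Fin.ext h')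
    exact this j i hij.symm h.symm (by omega)
  have hp : Function.IsPeriodicPt f (j.val - i.val) (f^[i.val] y0) := by
    unfold Function.IsPeriodicPt Function.IsFixedPt
    rw [← Function.iterate_add_apply, Nat.sub_add_cancel hlt.le]
    exact h.symm
  exact ⟨_, hp.trans_dvd (Nat.dvd_factorial (by omega) (by have := j.isLt; omega))⟩

/-- a bipartite relation of minimum degree two carries a closed non-backtracking walk -/
theorem exists_walk {V : Type*} [Fintype V] [DecidableEq V] (R : Finset (V × V)) (hne : R.Nonempty)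
    (hR : ∀ e ∈ R, (∃ e' ∈ R, e'.1 = e.1 ∧ e' ≠ e) ∧ (∃ e' ∈ R, e'.2 = e.2 ∧ e' ≠ e))
    (K : ℕ) (hK : Fintype.card V ^ 2 ≤ K) :
    ∃ a b : ZMod K.factorial → V, ∀ i, (a i, b i) ∈ R ∧ (a i, b (i + 1)) ∈ R ∧
      a (i + 1) ≠ a i ∧ b (i + 1) ≠ b i := by
  have step : ∀ e : R, ∃ e' : R, (e.1.1, e'.1.2) ∈ R ∧ e'.1.1 ≠ e.1.1 ∧ e'.1.2 ≠ e.1.2 := by
    rintro ⟨e, he⟩
    obtain ⟨e1, he1, h1, h1'⟩ := (hR e he).1
    obtain ⟨e2, he2, h2, h2'⟩ := (hR e1 he1).2
    refine ⟨⟨e2, he2⟩, ?_, ?_, ?_⟩
    · have : (e.1, e2.2) = e1 := by rw [← h1, h2]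
      simpa [this] using he1
    · intro h
      exact h2' (Prod.ext (by rw [h1]; exact h) h2)
    · intro h
      exact h1' (Prod.ext h1 (by rw [← h2]; exact h))
  choose f hf using step
  have : Nonempty R := hne.to_subtype
  obtain ⟨y, hy⟩ := exists_periodic f K (by
    refine le_trans ?_ hK
    rw [Fintype.card_coe, sq, ← Fintype.card_prod]
    exact Finset.card_le_univ _)
  have : NeZero K.factorial := ⟨K.factorial_ne_zero⟩
  have hp : Function.IsPeriodicPt f K.factorial y := hy
  have hnext : ∀ i : ZMod K.factorial, f^[(i + 1).val] y = f (f^[i.val] y) := by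
    intro i
    rw [ZMod.val_add, hp.iterate_mod_apply, ZMod.val_one_eq_one_mod, add_comm,
      Function.iterate_add_apply]
    have hp2 : Function.IsPeriodicPt f K.factorial (f^[i.val] y) := hp.apply_iterate _
    rw [hp2.iterate_mod_apply]
    rfl
  refine ⟨fun i => (f^[i.val] y).1.1, fun i => (f^[i.val] y).1.2, fun i => ?_⟩
  simp only [hnext]
  exact ⟨(f^[i.val] y).2, (hf _).1, (hf _).2.1, (hf _).2.2⟩

end Pool.Agent.H255Z.WO
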