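import Mathlib

/-! A finite group with many involutions satisfying no short relation, and the partite
hypergraph it defines, all of whose links of codimension two have large girth. -/

namespace Pool.Agent.H255Z.WO

open Finset

/-- words of bounded length -/
abbrev Wd (r M : ℕ) := {l : List (Fin r) // l.length ≤ M}

instance (r M : ℕ) : Finite (Wd r M) := List.finite_length_le (Fin r) M

/-- push or pop the letter `i` -/
def flipL {r : ℕ} (M : ℕ) (i : Fin r) (l : List (Fin r)) : List (Fin r) :=
  if l.head? = some i then (if l.tail.head? = some i then l else l.tail)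
  else if l.length < M then i :: l else l

theorem flipL_length {r M : ℕ} (i : Fin r) (l : List (Fin r)) (h : l.length ≤ M) :
    (flipL M i l).length ≤ M := by
  unfold flipL
  split_ifs
  · exact h
  · simp; omega
  · simp; omega
  · exact h

theorem flipL_flipL {r M : ℕ} (i : Fin r) (l : List (Fin r)) (h : l.length ≤ M) :
    flipL M i (flipL M i l) = l := by
  by_cases h1 : l.head? = some i
  · by_cases h2 : l.tail.head? = some i
    · have : flipL M i l = l := by unfold flipL; rw [if_pos h1, if_pos h2]
      rw [this, this]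
    · have : flipL M i l = l.tail := by unfold flipL; rw [if_pos h1, if_neg h2]
      rw [this]
      cases l with
      | nil => simp at h1
      | cons a l =>
        simp only [List.head?_cons, Option.some.injEq] at h1
        simp only [List.tail_cons, List.length_cons] at h2 h ⊢
        unfold flipL
        rw [if_neg h2, if_pos (by omega), h1]
  · by_cases h2 : l.length < M
    · have : flipL M i l = i :: l := by unfold flipL; rw [if_neg h1, if_pos h2]
      rw [this]
      unfold flipL
      simp [h1]
    · have : flipL M i l = l := by unfold flipL; rw [if_neg h1, if_neg h2]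
      rw [this, this]

/-- the involution attached to a letter -/
def sg {r : ℕ} (M : ℕ) (i : Fin r) : Equiv.Perm (Wd r M) :=
  Function.Involutive.toPerm (fun l => ⟨flipL M i l.1, flipL_length i l.1 l.2⟩)
    (fun l => Subtype.ext (flipL_flipL i l.1 l.2))

theorem sg_val {r M : ℕ} (i : Fin r) (l : Wd r M) : (sg M i l).1 = flipL M i l.1 := rfl

theorem sg_inv {r M : ℕ} (i : Fin r) : (sg M i)⁻¹ = sg M i := rfl

theorem sg_push {r M : ℕ} (i : Fin r) (l : Wd r M) (h1 : l.1.head? ≠ some i)
    (h2 : l.1.length < M) : (sg M i l).1 = i :: l.1 := by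
  rw [sg_val]; unfold flipL; rw [if_neg h1, if_pos h2]

theorem sg_injective {r M : ℕ} (hM : 0 < M) : Function.Injective (sg (r := r) M) := by
  intro i j h
  have h1 := sg_push (M := M) i ⟨[], by simp⟩ (by simp) (by simpa using hM)
  have h2 := sg_push (M := M) j ⟨[], by simp⟩ (by simp) (by simpa using hM)
  rw [h, h2] at h1
  simpa using h1.symm

theorem no_word {r M N : ℕ} (hN : 0 < N) (hM : 2 * N ≤ M) (ρ ρ' : ℕ → Fin r)
    (ψ : ℕ → Equiv.Perm (Wd r M)) (h1 : ∀ j < N, ρ j ≠ ρ' j) (h2 : ∀ j < N, ρ' j ≠ ρ (j + 1))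
    (h3 : ∀ j < N, ψ (j + 1) = sg M (ρ' j) * sg M (ρ j) * ψ j) (h4 : ψ N = ψ 0) : False := by
  let e : Wd r M := (ψ 0)⁻¹ ⟨[], by simp⟩
  have key : ∀ j ≤ N, (ψ j e).1.length = 2 * j ∧ (ψ j e).1.head? ≠ some (ρ j) := by
    intro j
    induction j with
    | zero => intro _; simp [e]
    | succ j ih =>
      intro hj
      obtain ⟨a1, a2⟩ := ih (by omega)
      have b1 := sg_push (ρ j) (ψ j e) a2 (by omega)
      have b2 := sg_push (ρ' j) (sg M (ρ j) (ψ j e))
        (by rw [b1]; simpa using h1 j (by omega)) (by rw [b1]; simp; omega)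
      rw [h3 j (by omega), Equiv.Perm.mul_apply, Equiv.Perm.mul_apply, b2, b1]
      refine ⟨by simp; omega, by simpa using h2 j (by omega)⟩
  have := (key N le_rfl).1
  rw [h4] at this
  simp [e] at this
  omega

section Prod

variable {Γ : Type*} [Group Γ] {k : ℕ}

/-- product of the entries before position `β` -/
def pre (β : Fin k) (g : Fin k → Γ) : Γ := ((List.ofFn g).take β).prod

/-- product of the entries after position `β` -/
def post (β : Fin k) (g : Fin k → Γ) : Γ := ((List.ofFn g).drop (β + 1)).prod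

theorem prod_split (β : Fin k) (g : Fin k → Γ) :
    (List.ofFn g).prod = pre β g * g β * post β g := by
  have h : β.val < (List.ofFn g).length := by simp
  unfold pre post
  nth_rewrite 1 [← List.take_append_drop β.val (List.ofFn g)]
  rw [List.prod_append, List.drop_eq_getElem_cons h, List.prod_cons, mul_assoc]
  simp

theorem pre_congr (β : Fin k) (g g' : Fin k → Γ) (h : ∀ c, c < β → g c = g' c) :
    pre β g = pre β g' := by
  unfold pre
  congr 1
  refine List.ext_getElem (by simp) fun i h1 h2 => ?_
  simp only [List.getElem_take, List.getElem_ofFn]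
  simp only [List.length_take, List.length_ofFn, lt_min_iff] at h1
  exact h _ h1.1

theorem post_congr (β : Fin k) (g g' : Fin k → Γ) (h : ∀ c, β < c → g c = g' c) :
    post β g = post β g' := by
  unfold post
  congr 1
  refine List.ext_getElem (by simp) fun i h1 h2 => ?_
  simp only [List.getElem_drop, List.getElem_ofFn]
  refine h _ ?_
  rw [Fin.lt_def]
  simp only
  omega

theorem prod_ne (β : Fin k) (g g' : Fin k → Γ) (h : ∀ c, c ≠ β → g c = g' c) (h' : g β ≠ g' β) :
    (List.ofFn g).prod ≠ (List.ofFn g').prod := by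
  rw [prod_split β g, prod_split β g', pre_congr β g g' (fun c hc => h c hc.ne),
    post_congr β g g' (fun c hc => h c hc.ne')]
  intro e
  exact h' (mul_left_cancel (mul_right_cancel e))

end Prod

theorem no_walk_fun {r M N k : ℕ} (hN : 0 < N) (hM : 2 * N ≤ M) (α β : Fin k) (hαβ : α ≠ β)
    (g g' : ℕ → Fin k → Equiv.Perm (Wd r M)) (ρ ρ' : ℕ → Fin r)
    (h1 : ∀ j ≤ N, (List.ofFn (g j)).prod = sg M (ρ j))
    (h2 : ∀ j < N, (List.ofFn (g' j)).prod = sg M (ρ' j))
    (h3 : ∀ j < N, ∀ c, c ≠ β → g j c = g' j c) (h3' : ∀ j < N, g j β ≠ g' j β)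
    (h4 : ∀ j < N, ∀ c, c ≠ α → g' j c = g (j + 1) c) (h4' : ∀ j < N, g' j α ≠ g (j + 1) α)
    (h5 : g N β = g 0 β) : False := by
  have n1 : ∀ j < N, ρ j ≠ ρ' j := fun j hj e =>
    prod_ne β _ _ (h3 j hj) (h3' j hj) (by rw [h1 j hj.le, h2 j hj, e])
  have n2 : ∀ j < N, ρ' j ≠ ρ (j + 1) := fun j hj e =>
    prod_ne α _ _ (h4 j hj) (h4' j hj) (by rw [h1 (j + 1) hj, h2 j hj, e])
  have c1 : ∀ j ≤ N, ∀ c, c ≠ α → c ≠ β → g j c = g 0 c := by
    intro j
    induction j with
    | zero => intros; rfl
    | succ j ih =>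
      intro hj c ha hb
      rw [← h4 j hj c ha, ← h3 j hj c hb, ih (by omega) c ha hb]
  rcases lt_or_gt_of_ne hαβ with hlt | hlt
  · refine no_word hN hM ρ ρ' (fun j => (g j β * post β (g 0))⁻¹) n1 n2 (fun j hj => ?_)
      (by simp only [h5])
    have e1 : post β (g j) = post β (g 0) :=
      post_congr β _ _ fun c hc => c1 j hj.le c (hlt.trans hc).ne' hc.ne'
    have e2 : post β (g' j) = post β (g j) := post_congr β _ _ fun c hc => (h3 j hj c hc.ne').symm
    have e3 : pre β (g' j) = pre β (g j) := pre_congr β _ _ fun c hc => (h3 j hj c hc.ne).symm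
    have e4 := h4 j hj β hαβ.symm
    rw [← sg_inv (ρ' j), ← h1 j hj.le, ← h2 j hj, prod_split β (g j), prod_split β (g' j), e2, e3,
      e1, e4]
    group
  · refine no_word hN hM ρ ρ' (fun j => pre β (g 0) * g j β) n1 n2 (fun j hj => ?_)
      (by simp only [h5])
    have e1 : pre β (g j) = pre β (g 0) :=
      pre_congr β _ _ fun c hc => c1 j hj.le c (hc.trans hlt).ne hc.ne
    have e2 : post β (g' j) = post β (g j) := post_congr β _ _ fun c hc => (h3 j hj c hc.ne').symm
    have e3 : pre β (g' j) = pre β (g j) := pre_congr β _ _ fun c hc => (h3 j hj c hc.ne).symm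
    have e4 := h4 j hj β hαβ.symm
    rw [← sg_inv (ρ j), ← h1 j hj.le, ← h2 j hj, prod_split β (g j), prod_split β (g' j), e2, e3,
      e1, e4]
    group

end Pool.Agent.H255Z.WO
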