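import Mathlib
import Pool.Agent.H362R2.CM.BoxCount

/-! The Turan function of a single uniform hypergraph: existence of the density, blow-up lower
bound and sampling upper bound. The averaging proof follows `Pool.Agent.H120R2.CliqueDefs`. -/

namespace Pool.Agent.H255Z.WO

open Finset

/-- the Turan function, as in the frozen statement -/
noncomputable def ex (k : ℕ) {m : ℕ} (L : Finset (Finset (Fin m))) (n : ℕ) : ℕ :=
  sSup {t : ℕ | ∃ H : Finset (Finset (Fin n)), (∀ A ∈ H, A.card = k) ∧ H.card = t ∧
    ¬ ∃ f : Fin m ↪ Fin n, ∀ e ∈ L, e.map f ∈ H}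

variable {k m : ℕ} {L : Finset (Finset (Fin m))}

theorem ex_bdd (n : ℕ) : BddAbove {t : ℕ | ∃ H : Finset (Finset (Fin n)),
    (∀ A ∈ H, A.card = k) ∧ H.card = t ∧ ¬ ∃ f : Fin m ↪ Fin n, ∀ e ∈ L, e.map f ∈ H} :=
  ⟨Fintype.card (Finset (Fin n)), by
    rintro t ⟨H, -, rfl, -⟩
    exact Finset.card_le_univ H⟩

theorem le_ex {n : ℕ} {H : Finset (Finset (Fin n))} (h1 : ∀ A ∈ H, A.card = k)
    (h2 : ¬ ∃ f : Fin m ↪ Fin n, ∀ e ∈ L, e.map f ∈ H) : H.card ≤ ex k L n :=
  le_csSup (ex_bdd n) ⟨H, h1, rfl, h2⟩

theorem ex_spec (n : ℕ) : ex k L n = 0 ∨ ∃ H : Finset (Finset (Fin n)),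
    (∀ A ∈ H, A.card = k) ∧ H.card = ex k L n ∧ ¬ ∃ f : Fin m ↪ Fin n, ∀ e ∈ L, e.map f ∈ H := by
  by_cases h : ex k L n = 0
  · exact Or.inl h
  · right
    refine Nat.sSup_mem ?_ (ex_bdd n)
    by_contra hc
    rw [Set.not_nonempty_iff_eq_empty] at hc
    apply h
    unfold ex
    rw [hc]; simp

theorem ex_succ (n : ℕ) : (n + 1 - k) * ex k L (n + 1) ≤ (n + 1) * ex k L n := by
  classical
  rcases ex_spec (k := k) (L := L) (n + 1) with h0 | ⟨H, h1, h3, h2⟩
  · rw [h0]; simp
  rw [← h3]
  have key : ∀ v : Fin (n + 1), (H.filter (fun A => v ∉ A)).card ≤ ex k L n := by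
    intro v
    set H' : Finset (Finset (Fin n)) := univ.filter (fun B => B.map v.succAboveEmb ∈ H) with hH'
    have e1 : (H.filter (fun A => v ∉ A)).card = H'.card := by
      symm
      refine Finset.card_bij (fun B _ => B.map v.succAboveEmb) ?_ ?_ ?_
      · intro B hB
        rw [hH', mem_filter] at hB
        rw [mem_filter]
        refine ⟨hB.2, ?_⟩
        rw [mem_map]
        rintro ⟨x, -, hx⟩
        exact Fin.succAbove_ne v x hx
      · intro B _ B' _ hBB
        exact Finset.map_injective _ hBB
      · intro A hA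
        rw [mem_filter] at hA
        have hAm : (univ.filter (fun x => v.succAboveEmb x ∈ A)).map v.succAboveEmb = A := by
          ext a
          simp only [mem_map, mem_filter, mem_univ, true_and]
          constructor
          · rintro ⟨x, hx, rfl⟩; exact hx
          · intro ha
            have hav : a ≠ v := by rintro rfl; exact hA.2 ha
            obtain ⟨x, hx⟩ := Fin.exists_succAbove_eq hav
            exact ⟨x, by rw [Fin.succAboveEmb_apply, hx]; exact ha,
              by rw [Fin.succAboveEmb_apply, hx]⟩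
        refine ⟨univ.filter (fun x => v.succAboveEmb x ∈ A), ?_, hAm⟩
        rw [hH', mem_filter]
        exact ⟨mem_univ _, by rw [hAm]; exact hA.1⟩
    rw [e1]
    apply le_ex
    · intro B hB
      rw [hH', mem_filter] at hB
      have := h1 _ hB.2
      rwa [Finset.card_map] at this
    · rintro ⟨f, hf⟩
      apply h2
      refine ⟨f.trans v.succAboveEmb, fun e he => ?_⟩
      have := hf e he
      rw [hH', mem_filter, Finset.map_map] at this
      exact this.2
  have hs : ∑ v : Fin (n + 1), (H.filter (fun A => v ∉ A)).card = (n + 1 - k) * H.card := by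
    simp_rw [Finset.card_filter]
    rw [Finset.sum_comm]
    have : ∀ A ∈ H, ∑ v : Fin (n + 1), (if v ∉ A then 1 else 0) = n + 1 - k := by
      intro A hA
      rw [← Finset.card_filter]
      have : (univ.filter (fun v => v ∉ A)) = Aᶜ := by ext v; simp
      rw [this, Finset.card_compl, h1 A hA, Fintype.card_fin]
    rw [Finset.sum_congr rfl this, Finset.sum_const, smul_eq_mul, mul_comm]
  rw [← hs]
  calc ∑ v : Fin (n + 1), (H.filter (fun A => v ∉ A)).card ≤ ∑ v : Fin (n + 1), ex k L n :=
        Finset.sum_le_sum fun v _ => key v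
    _ = (n + 1) * ex k L n := by simp

theorem ratio_succ (n : ℕ) (hk : k ≤ n) :
    (ex k L (n + 1) : ℝ) / ((n + 1).choose k : ℝ) ≤ (ex k L n : ℝ) / (n.choose k : ℝ) := by
  have h1 := ex_succ (k := k) (L := L) n
  have h2 : (n + 1 - k) * (n + 1).choose k = (n + 1) * n.choose k := by
    have h3 := Nat.choose_mul_succ_eq n k
    rw [mul_comm, ← h3, mul_comm]
  have p1 : 0 < n.choose k := Nat.choose_pos hk
  have p2 : 0 < (n + 1).choose k := Nat.choose_pos (by omega)
  have p3 : 0 < n + 1 - k := by omega
  rw [div_le_div_iff₀ (by exact_mod_cast p2) (by exact_mod_cast p1)]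
  have h4 : ex k L (n + 1) * n.choose k ≤ ex k L n * (n + 1).choose k := by
    have : (n + 1 - k) * (ex k L (n + 1) * n.choose k)
        ≤ (n + 1 - k) * (ex k L n * (n + 1).choose k) := by
      calc (n + 1 - k) * (ex k L (n + 1) * n.choose k)
          = ((n + 1 - k) * ex k L (n + 1)) * n.choose k := by ring
        _ ≤ ((n + 1) * ex k L n) * n.choose k := Nat.mul_le_mul_right _ h1
        _ = ex k L n * ((n + 1) * n.choose k) := by ring
        _ = ex k L n * ((n + 1 - k) * (n + 1).choose k) := by rw [h2]
        _ = (n + 1 - k) * (ex k L n * (n + 1).choose k) := by ring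
    exact Nat.le_of_mul_le_mul_left this p3
  exact_mod_cast h4

theorem ratio_tendsto (k : ℕ) (L : Finset (Finset (Fin m))) : ∃ d : ℝ,
    Filter.Tendsto (fun n : ℕ => (ex k L n : ℝ) / (n.choose k : ℝ)) Filter.atTop (nhds d) := by
  have ha : Antitone (fun n : ℕ => (ex k L (n + k) : ℝ) / ((n + k).choose k : ℝ)) := by
    refine antitone_nat_of_succ_le fun n => ?_
    have := ratio_succ (k := k) (L := L) (n + k) (by omega)
    have e : n + 1 + k = n + k + 1 := by ring
    rw [e]; exact this
  have hb : BddBelow (Set.range (fun n : ℕ => (ex k L (n + k) : ℝ) / ((n + k).choose k : ℝ))) := by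
    refine ⟨0, ?_⟩
    rintro x ⟨n, rfl⟩
    positivity
  exact ⟨_, (Filter.tendsto_add_atTop_iff_nat k).mp (tendsto_atTop_ciInf ha hb)⟩

theorem desc_ge (n j : ℕ) : (n : ℝ) ^ j * (n - j ^ 2) ≤ n * n.descFactorial j := by
  induction j with
  | zero => simp
  | succ j ih =>
    have hn : (0 : ℝ) ≤ n := Nat.cast_nonneg n
    have hj : (0 : ℝ) ≤ j := Nat.cast_nonneg j
    by_cases h : (n : ℝ) ≤ (j + 1) ^ 2
    · refine le_trans (mul_nonpos_of_nonneg_of_nonpos (by positivity) ?_) (by positivity)
      push_cast; linarith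
    push Not at h
    have h1 : (j : ℝ) ≤ n := by nlinarith
    have h2 : j ≤ n := by exact_mod_cast h1
    rw [Nat.descFactorial_succ]
    push_cast [Nat.cast_sub h2]
    have h3 := mul_le_mul_of_nonneg_left ih (sub_nonneg.2 h1)
    have h4 : (n : ℝ) * (n - (j + 1) ^ 2) ≤ (n - j) * (n - j ^ 2) := by
      nlinarith [mul_nonneg hn hj, pow_nonneg hj 3]
    have h5 := mul_le_mul_of_nonneg_left h4 (pow_nonneg hn j)
    rw [pow_succ]
    nlinarith

/-- ordered tuples spanning an edge -/
theorem card_tuples {V κ : Type*} [Fintype V] [DecidableEq V] [Fintype κ] [DecidableEq κ]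
    (G : Finset (Finset V)) (hG : ∀ e ∈ G, e.card = Fintype.card κ) :
    (univ.filter fun F : κ → V => univ.image F ∈ G).card = (Fintype.card κ).factorial * G.card := by
  rw [Finset.card_eq_sum_card_fiberwise (f := fun F : κ → V => univ.image F) (t := G)
    (fun F hF => by simpa using hF), mul_comm, ← smul_eq_mul, ← Finset.sum_const]
  refine Finset.sum_congr rfl fun e he => ?_
  have h1 : Fintype.card (κ ↪ e) = (Fintype.card κ).factorial := by
    rw [Fintype.card_embedding_eq, Fintype.card_coe, hG e he, Nat.descFactorial_self]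
  rw [← h1, ← Finset.card_univ]
  symm
  refine Finset.card_bij (fun f _ => fun i => (f i : V)) ?_ ?_ ?_
  · intro f _
    have h2 : univ.image (fun i => (f i : V)) = e := by
      refine Finset.eq_of_subset_of_card_le (fun v hv => ?_) ?_
      · obtain ⟨i, -, rfl⟩ := mem_image.1 hv
        exact (f i).2
      · have h3 : Function.Injective (fun i => (f i : V)) :=
          Subtype.val_injective.comp f.injective
        rw [Finset.card_image_of_injective _ h3, hG e he]
        rfl
    simp [h2, he]
  · intro f _ g _ h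
    ext i
    exact congrFun h i
  · intro F hF
    simp only [mem_filter, mem_univ, true_and] at hF
    have h2 : Function.Injective F := by
      have : (univ.image F).card = (univ : Finset κ).card := by rw [hF.2, hG e he]; rfl
      intro i j hij
      exact Finset.card_image_iff.1 this (mem_coe.2 (mem_univ i)) (mem_coe.2 (mem_univ j)) hij
    refine ⟨⟨fun i => ⟨F i, ?_⟩, fun i j h => h2 (congrArg Subtype.val h)⟩, mem_univ _, rfl⟩
    rw [← hF.2]; exact mem_image_of_mem _ (mem_univ i)

/-- blow-up lower bound -/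
theorem lower_bound {V : Type*} [Fintype V] [DecidableEq V] [Nonempty V] (G : Finset (Finset V))
    (hG : ∀ e ∈ G, e.card = k) (hno : ¬ ∃ φ : Fin m → V, ∀ e ∈ L, e.image φ ∈ G) (d : ℝ)
    (hd : Filter.Tendsto (fun n : ℕ => (ex k L n : ℝ) / (n.choose k : ℝ)) Filter.atTop (nhds d)) :
    ((univ.filter fun F : Fin k → V => univ.image F ∈ G).card : ℝ) / (Fintype.card V) ^ k ≤ d := by
  classical
  have hV : 0 < Fintype.card V := Fintype.card_pos
  have hsub : Filter.Tendsto (fun q : ℕ => Fintype.card V * q) Filter.atTop Filter.atTop :=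
    Filter.Tendsto.const_mul_atTop' hV Filter.tendsto_id
  refine ge_of_tendsto (hd.comp hsub) ?_
  rw [Filter.eventually_atTop]
  refine ⟨k + 1, fun q hq => ?_⟩
  set n := Fintype.card V * q with hn
  have hkn : k ≤ n := by nlinarith
  let ε : Fin n ≃ V × Fin q := (Fintype.equivFinOfCardEq (by simp [hn])).symm
  let H : Finset (Finset (Fin n)) := univ.filter fun A => A.card = k ∧
    A.image (fun v => (ε v).1) ∈ G
  have h1 : H.card ≤ ex k L n := by
    refine le_ex (fun A hA => (mem_filter.1 hA).2.1) ?_
    rintro ⟨f, hf⟩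
    refine hno ⟨fun v => (ε (f v)).1, fun e he => ?_⟩
    have := (mem_filter.1 (hf e he)).2.2
    rwa [Finset.map_eq_image, Finset.image_image] at this
  have h2 := card_tuples (κ := Fin k) H (fun A hA => by simpa using (mem_filter.1 hA).2.1)
  rw [Fintype.card_fin] at h2
  have h3 : (univ.filter fun F : Fin k → V => univ.image F ∈ G).card * q ^ k ≤
      (univ.filter fun F : Fin k → Fin n => univ.image F ∈ H).card := by
    have : q ^ k = (univ : Finset (Fin k → Fin q)).card := by simp
    rw [this, ← Finset.card_product]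
    refine Finset.card_le_card_of_injOn (fun p i => ε.symm (p.1 i, p.2 i)) ?_ ?_
    · intro p hp
      simp only [coe_product, Set.mem_prod, mem_coe, mem_filter, mem_univ, true_and,
        and_true] at hp
      simp only [coe_filter, mem_univ, true_and, Set.mem_ofPred_eq, H, mem_filter,
        Finset.image_image]
      have e1 : ((fun v => (ε v).1) ∘ fun i => ε.symm (p.1 i, p.2 i)) = p.1 := by
        funext i; simp
      refine ⟨le_antisymm (Finset.card_image_le.trans (by simp)) ?_, by rw [e1]; exact hp⟩
      refine (hG _ hp).symm.le.trans ?_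
      nth_rewrite 1 [← e1]
      rw [← Finset.image_image]
      exact Finset.card_image_le
    · intro p _ p' _ h
      have : ∀ i, (p.1 i, p.2 i) = (p'.1 i, p'.2 i) := fun i => ε.symm.injective (congrFun h i)
      exact Prod.ext (funext fun i => (Prod.ext_iff.1 (this i)).1)
        (funext fun i => (Prod.ext_iff.1 (this i)).2)
  have h4 : k.factorial * n.choose k ≤ n ^ k := by
    rw [← Nat.descFactorial_eq_factorial_mul_choose]
    exact Nat.descFactorial_le_pow _ _
  have p1 : 0 < n.choose k := Nat.choose_pos hkn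
  simp only [Function.comp]
  rw [← hn, div_le_div_iff₀ (by positivity) (by exact_mod_cast p1)]
  have h5 : (univ.filter fun F : Fin k → V => univ.image F ∈ G).card * n.choose k ≤
      ex k L n * Fintype.card V ^ k := by
    have p2 : 0 < q ^ k := pow_pos (by omega) _
    refine Nat.le_of_mul_le_mul_left ?_ p2
    calc q ^ k * ((univ.filter fun F : Fin k → V => univ.image F ∈ G).card * n.choose k)
        = ((univ.filter fun F : Fin k → V => univ.image F ∈ G).card * q ^ k) * n.choose k := by ring
      _ ≤ (k.factorial * ex k L n) * n.choose k :=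
          Nat.mul_le_mul_right _ (h3.trans (h2.le.trans (Nat.mul_le_mul_left _ h1)))
      _ = ex k L n * (k.factorial * n.choose k) := by ring
      _ ≤ ex k L n * n ^ k := Nat.mul_le_mul_left _ h4
      _ = q ^ k * (ex k L n * Fintype.card V ^ k) := by rw [hn, mul_pow]; ring
  exact_mod_cast h5

end Pool.Agent.H255Z.WO
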