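import Pool.Agent.H255Z.WO.Upper

namespace Pool.Agent.H255Z.WO

open Finset

variable {V : Type*} [Fintype V] [DecidableEq V]

/-- the five edges tying a left rim vertex `z` and a right rim vertex `z'` to the two centres -/
def Rel (G : Finset (Finset V)) (C U W : Finset V) (b b' z z' : V) : Prop :=
  insert b C ∪ insert z U ∈ G ∧ insert b' C ∪ insert z U ∈ G ∧
  insert b C ∪ insert z' W ∈ G ∧ insert b' C ∪ insert z' W ∈ G ∧ insert z U ∪ insert z' W ∈ G

theorem final_ineq (h : ℕ) (hh : 10000 ≤ h) (s S d β : ℝ) (hs0 : 0 ≤ s) (hs1 : s ≤ 1)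
    (hS0 : 0 ≤ S) (hS : S ≤ (1 - s) ^ h) (hd : 1 / 2 < d) (hdS : d ≤ S ^ 2) (hβ0 : 0 ≤ β)
    (hbook : s ≤ 1 / 20000 → 2 * d ^ 2 - S ^ 2 * d ≤ 6 * S ^ 2 * β) (hβ : β ≤ 584 * s) : False := by
  have hh' : (10000 : ℝ) ≤ h := by exact_mod_cast hh
  have b1 : 1 + ((2 * h : ℕ) : ℝ) * s ≤ (1 + s) ^ (2 * h) := one_add_mul_le_pow (by linarith) _
  have b2 : (1 - s) ^ (2 * h) * (1 + s) ^ (2 * h) ≤ 1 := by
    rw [← mul_pow]
    exact pow_le_one₀ (by nlinarith) (by nlinarith)
  have b3 : S ^ 2 ≤ (1 - s) ^ (2 * h) := by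
    rw [mul_comm, pow_mul]
    exact pow_le_pow_left₀ hS0 hS 2
  have b4 : 0 ≤ (1 - s) ^ (2 * h) := pow_nonneg (by linarith) _
  push_cast at b1
  have hhs : 0 ≤ (h : ℝ) * s := by positivity
  have b5 : S ^ 2 * (1 + 2 * h * s) ≤ 1 := by
    calc S ^ 2 * (1 + 2 * h * s) ≤ (1 - s) ^ (2 * h) * (1 + s) ^ (2 * h) :=
          mul_le_mul b3 b1 (by linarith) b4
      _ ≤ 1 := b2
  have b6 : 2 * (h * s) < 1 := by nlinarith
  have b7 : s ≤ 1 / 20000 := by nlinarith
  have b8 := hbook b7
  have b9 : S ^ 2 ≤ 1 - h * s := by nlinarith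
  have b10 : S ^ 2 ≤ 1 := by linarith
  have b11 : d * (2 * d - S ^ 2) ≤ 6 * β := by nlinarith
  have b12 : h * s < 2 * d - S ^ 2 := by linarith
  have b13 : 10000 * s ≤ h * s := by nlinarith
  nlinarith

theorem upper (h : ℕ) (hh : 10000 ≤ h) (G : Finset (Finset V))
    (hG : ∀ e ∈ G, e.card = (2 * h + 2) + (2 * h + 2)) (x : V → ℝ) (hx : ∀ v, 0 ≤ x v)
    (h1 : ∑ v, x v = 1)
    (hd : 1 / 2 < (((2 * h + 2) + (2 * h + 2)).factorial : ℝ) * ∑ e ∈ G, ∏ v ∈ e, x v) :
    ∃ (C U W : Finset V) (b b' : V), C.card ≤ 2 * h + 1 ∧ U.card ≤ 2 * h + 1 ∧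
      W.card ≤ 2 * h + 1 ∧ b ≠ b' ∧ 0 < x b ∧ 0 < x b' ∧ ∃ R : Finset (V × V), R.Nonempty ∧
      (∀ e ∈ R, 0 < x e.1 ∧ 0 < x e.2 ∧ Rel G C U W b b' e.1 e.2) ∧
      ∀ e ∈ R, (∃ e' ∈ R, e'.1 = e.1 ∧ e' ≠ e) ∧ (∃ e' ∈ R, e'.2 = e.2 ∧ e' ≠ e) := by
  classical
  by_contra hcon
  set s := ∑ v, x v ^ 2 with hs
  have hw := wt_nonneg hx
  have hx1 : ∀ v, x v ≤ 1 := fun v => by
    rw [← h1]; exact Finset.single_le_sum (fun u _ => hx u) (mem_univ v)
  have hs0 : 0 ≤ s := Finset.sum_nonneg fun v _ => sq_nonneg _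
  have hs1 : s ≤ 1 := by
    rw [← h1]
    exact Finset.sum_le_sum fun v _ => by nlinarith [hx v, hx1 v]
  let A : Finset V → Finset V → ℝ := fun p q => if p ∪ q ∈ G then 1 else 0
  have hA : ∀ p q, A p q = 0 ∨ A p q = 1 := fun p q => by
    simp only [A]; split_ifs <;> simp
  have hA0 : ∀ p q, 0 ≤ A p q := fun p q => by rcases hA p q with h | h <;> simp [h]
  have hA1 : ∀ p q, A p q ≤ 1 := fun p q => by rcases hA p q with h | h <;> simp [h]
  have hAs : ∀ p q, A p q = A q p := fun p q => by simp only [A, Finset.union_comm]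
  let w : Finset V → ℝ := wt x (2 * h + 2)
  let α : Finset V → Finset V → Finset V → V → ℝ := fun p q C b =>
    A (insert b C) p * A (insert b C) q
  have hα0 : ∀ p q C b, 0 ≤ α p q C b := fun p q C b => mul_nonneg (hA0 _ _) (hA0 _ _)
  have hα1 : ∀ p q C b, α p q C b ≤ 1 := fun p q C b =>
    mul_le_one₀ (hA1 _ _) (hA0 _ _) (hA1 _ _)
  let J : Finset V → Finset V → ℝ := fun p q => ∑ C, ∑ b, ∑ b', wt x (2 * h + 1) C *
    (x b * x b' * (if b = b' then 0 else 1)) * (α p q C b * α p q C b')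
  have hcoef : ∀ b b', 0 ≤ x b * x b' * (if b = b' then (0 : ℝ) else 1) := fun b b' =>
    mul_nonneg (mul_nonneg (hx _) (hx _)) (by split_ifs <;> norm_num)
  have hJ0 : ∀ p q, 0 ≤ J p q := fun p q => Finset.sum_nonneg fun C _ =>
    Finset.sum_nonneg fun b _ => Finset.sum_nonneg fun b' _ =>
      mul_nonneg (mul_nonneg (hw _ _) (hcoef b b')) (mul_nonneg (hα0 _ _ _ _) (hα0 _ _ _ _))
  -- codegree versus `J`
  have hcJ : ∀ p q, (∑ u, w u * (A u p * A u q)) ^ 2 ≤ s + J p q := by
    intro p q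
    have e1 : ∑ u, w u * (A u p * A u q) ≤ ∑ C, wt x (2 * h + 1) C * ∑ b, x b * α p q C b := by
      have := wt_succ_le hx (2 * h + 1) (fun u => A u p * A u q)
        (fun u => mul_nonneg (hA0 _ _) (hA0 _ _))
      simpa only [mul_assoc, ← Finset.mul_sum] using this
    have e0 : 0 ≤ ∑ u, w u * (A u p * A u q) := Finset.sum_nonneg fun u _ =>
      mul_nonneg (hw _ _) (mul_nonneg (hA0 _ _) (hA0 _ _))
    have e2 := Finset.sum_sq_le_sum_mul_sum_of_sq_le_mul (Finset.univ : Finset (Finset V))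
      (r := fun C => wt x (2 * h + 1) C * ∑ b, x b * α p q C b) (f := fun C => wt x (2 * h + 1) C)
      (g := fun C => wt x (2 * h + 1) C * (∑ b, x b * α p q C b) ^ 2)
      (fun C _ => hw _ _) (fun C _ => mul_nonneg (hw _ _) (sq_nonneg _))
      (fun p _ => le_of_eq (by ring))
    have e3 : ∀ C, (∑ b, x b * α p q C b) ^ 2 ≤ s + ∑ b, ∑ b',
        (x b * x b' * (if b = b' then 0 else 1)) * (α p q C b * α p q C b') := by
      intro C
      rw [sq, Finset.sum_mul_sum, hs, ← Finset.sum_add_distrib]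
      refine Finset.sum_le_sum fun b _ => ?_
      have e4 : x b ^ 2 = ∑ b', if b = b' then x b ^ 2 else 0 := by simp
      rw [e4, ← Finset.sum_add_distrib]
      refine Finset.sum_le_sum fun b' _ => ?_
      by_cases hb : b = b'
      · subst hb
        have := mul_le_one₀ (hα1 p q C b) (hα0 p q C b) (hα1 p q C b)
        have := mul_le_mul_of_nonneg_left this (sq_nonneg (x b))
        simp only [if_true]
        nlinarith
      · simp only [if_neg hb]
        exact le_of_eq (by ring)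
    have e5 : ∑ C, wt x (2 * h + 1) C * (∑ b, x b * α p q C b) ^ 2 ≤ s + J p q := by
      have e6 : ∑ C, wt x (2 * h + 1) C * (∑ b, x b * α p q C b) ^ 2 ≤
          (∑ C, wt x (2 * h + 1) C) * s + J p q := by
        simp only [J]
        rw [Finset.sum_mul, ← Finset.sum_add_distrib]
        refine Finset.sum_le_sum fun C _ => ?_
        have := mul_le_mul_of_nonneg_left (e3 C) (hw (2 * h + 1) C)
        simp only [mul_assoc, ← Finset.mul_sum] at this ⊢
        linarith
      have := mul_le_mul_of_nonneg_right (wt_total hx h1 (2 * h + 1)) hs0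
      linarith
    have e7 : 0 ≤ ∑ C, wt x (2 * h + 1) C * (∑ b, x b * α p q C b) ^ 2 :=
      Finset.sum_nonneg fun C _ => mul_nonneg (hw _ _) (sq_nonneg _)
    have e8 := mul_le_mul_of_nonneg_right (wt_total hx h1 (2 * h + 1)) e7
    have e9 := pow_le_pow_left₀ e0 e1 2
    linarith
  -- the forest bound
  have hK : ∀ (C : Finset V) (b b' : V), C.card = 2 * h + 1 → b ≠ b' → 0 < x b → 0 < x b' →
      ∑ p, ∑ q, w p * w q * (A p q * (α p q C b * α p q C b')) ≤ 8 * s := by
    intro C b b' hC hbb hb hb'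
    refine wt_light2 hx h1 (2 * h) (fun p q => A p q * (α p q C b * α p q C b'))
      (fun p q => mul_nonneg (hA0 _ _) (mul_nonneg (hα0 _ _ _ _) (hα0 _ _ _ _))) ?_
    intro B B' u u' hB hB'
    let R : Finset (V × V) := univ.filter fun e => x e.1 ≤ x u ∧ x e.2 ≤ x u' ∧ 0 < x e.1 ∧
      0 < x e.2 ∧ Rel G C (insert u B) (insert u' B') b b' e.1 e.2
    have e1 : ∑ v, ∑ v', x v * x v' * (if x v ≤ x u ∧ x v' ≤ x u' then
        A (insert v (insert u B)) (insert v' (insert u' B')) *
          (α (insert v (insert u B)) (insert v' (insert u' B')) C b *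
            α (insert v (insert u B)) (insert v' (insert u' B')) C b') else 0) ≤
        ∑ e ∈ R, x e.1 * x e.2 := by
      rw [← Fintype.sum_prod_type', Finset.sum_filter]
      refine Finset.sum_le_sum fun e _ => ?_
      have hxx : 0 ≤ x e.1 * x e.2 := mul_nonneg (hx _) (hx _)
      by_cases c1 : x e.1 ≤ x u ∧ x e.2 ≤ x u'
      swap
      · rw [if_neg c1, mul_zero]; split_ifs
        · exact hxx
        · exact le_rfl
      rw [if_pos c1]
      by_cases c2 : x e.1 ≤ x u ∧ x e.2 ≤ x u' ∧ 0 < x e.1 ∧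
        0 < x e.2 ∧ Rel G C (insert u B) (insert u' B') b b' e.1 e.2
      · rw [if_pos c2]
        refine mul_le_of_le_one_right hxx ?_
        exact mul_le_one₀ (hA1 _ _) (mul_nonneg (hα0 _ _ _ _) (hα0 _ _ _ _))
          (mul_le_one₀ (hα1 _ _ _ _) (hα0 _ _ _ _) (hα1 _ _ _ _))
      · rw [if_neg c2]
        rcases (hx e.1).eq_or_lt with z1 | z1
        · rw [← z1]; simp
        rcases (hx e.2).eq_or_lt with z2 | z2
        · rw [← z2]; simp
        have c3 : ¬ Rel G C (insert u B) (insert u' B') b b' e.1 e.2 :=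
          fun c => c2 ⟨c1.1, c1.2, z1, z2, c⟩
        refine le_of_eq (mul_eq_zero_of_right _ ?_)
        unfold Rel at c3
        simp only [α, A]
        split_ifs <;> first | exact absurd ⟨‹_›, ‹_›, ‹_›, ‹_›, ‹_›⟩ c3 | simp
    refine e1.trans ?_
    have e2 := forest x hx (x u) (x u') (hx _) (hx _) R
      (fun e he => (mem_filter.1 he).2.1) (fun e he => (mem_filter.1 he).2.2.1) (by
        intro R' hR' hne
        by_contra hc
        refine hcon ⟨C, insert u B, insert u' B', b, b', hC.le,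
          (Finset.card_insert_le _ _).trans (by omega),
          (Finset.card_insert_le _ _).trans (by omega), hbb, hb, hb', R', hne,
          fun e he => (mem_filter.1 (hR' he)).2.2.2, fun e he => ?_⟩
        push Not at hc
        exact hc e he)
    have e3 : ∀ T : Finset V, ∑ v ∈ T, x v ≤ 1 := fun T => by
      rw [← h1]
      exact Finset.sum_le_sum_of_subset_of_nonneg (subset_univ _) fun v _ _ => hx v
    have e4 := mul_le_mul_of_nonneg_left (e3 (R.image Prod.fst)) (hx u')
    have e5 := mul_le_mul_of_nonneg_left (e3 (R.image Prod.snd)) (hx u)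
    linarith
  have hJ : ∑ p, ∑ q, w p * w q * A p q * J p q ≤ 8 * s := by
    have e1 : ∑ p, ∑ q, w p * w q * A p q * J p q = ∑ C, ∑ b, ∑ b', wt x (2 * h + 1) C *
        (x b * x b' * (if b = b' then 0 else 1)) *
          ∑ p, ∑ q, w p * w q * (A p q * (α p q C b * α p q C b')) := by
      simp only [J, Finset.mul_sum]
      rw [← Fintype.sum_prod_type']
      rw [Finset.sum_comm]
      refine Finset.sum_congr rfl fun C _ => ?_
      rw [Finset.sum_comm]
      refine Finset.sum_congr rfl fun b _ => ?_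
      rw [Finset.sum_comm]
      refine Finset.sum_congr rfl fun b' _ => ?_
      rw [← Fintype.sum_prod_type']
      exact Finset.sum_congr rfl fun e _ => by ring
    rw [e1]
    have e2 : ∀ (C : Finset V) (b b' : V), wt x (2 * h + 1) C *
        (x b * x b' * (if b = b' then 0 else 1)) *
          ∑ p, ∑ q, w p * w q * (A p q * (α p q C b * α p q C b')) ≤
        wt x (2 * h + 1) C * (x b * (x b' * (8 * s))) := by
      intro C b b'
      have hr : 0 ≤ wt x (2 * h + 1) C * (x b * (x b' * (8 * s))) :=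
        mul_nonneg (hw _ _) (mul_nonneg (hx _) (mul_nonneg (hx _) (by linarith)))
      by_cases hC : C.card = 2 * h + 1
      swap
      · simp [wt, hC]
      by_cases hbb : b = b'
      · rw [if_pos hbb]; simpa using hr
      rcases (hx b).eq_or_lt with z1 | z1
      · rw [← z1]; simp
      rcases (hx b').eq_or_lt with z2 | z2
      · rw [← z2]; simp
      rw [if_neg hbb]
      have := mul_le_mul_of_nonneg_left (hK C b b' hC hbb z1 z2)
        (mul_nonneg (hw (2 * h + 1) C) (mul_nonneg (hx b) (hx b')))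
      linarith
    refine (Finset.sum_le_sum fun C _ => Finset.sum_le_sum fun b _ =>
      Finset.sum_le_sum fun b' _ => e2 C b b').trans ?_
    simp only [← Finset.mul_sum, ← Finset.sum_mul, h1, one_mul]
    have := mul_le_mul_of_nonneg_right (wt_total hx h1 (2 * h + 1)) (by linarith : 0 ≤ 8 * s)
    linarith
  set S := ∑ u, w u with hS
  set d := ∑ p, ∑ q, w p * w q * A p q with hdd
  have hd1 : 1 / 2 < d := by
    refine hd.trans_le ?_
    have e1 := wt_add x (2 * h + 2) (2 * h + 2) (fun e => if e ∈ G then 1 else 0)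
    have e2 : ∑ e, wt x (2 * h + 2 + (2 * h + 2)) e * (if e ∈ G then (1 : ℝ) else 0) =
        (((2 * h + 2) + (2 * h + 2)).factorial : ℝ) * ∑ e ∈ G, ∏ v ∈ e, x v := by
      simp only [mul_ite, mul_one, mul_zero]
      rw [Finset.sum_ite_mem, Finset.univ_inter, Finset.mul_sum]
      exact Finset.sum_congr rfl fun e he => by rw [wt, if_pos (hG e he)]
    rw [← e2, ← e1]
    refine Finset.sum_le_sum fun p _ => ?_
    rw [Finset.mul_sum]
    refine Finset.sum_le_sum fun q _ => ?_
    rw [mul_assoc]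
    refine mul_le_mul_of_nonneg_left (mul_le_mul_of_nonneg_left ?_ (hw _ _)) (hw _ _)
    split_ifs with c1 c2
    · simp [A, c2]
    · exact hA0 _ _
    · exact hA0 _ _
  have hdS : d ≤ S ^ 2 := by
    rw [sq, hS, Finset.sum_mul_sum]
    exact Finset.sum_le_sum fun p _ => Finset.sum_le_sum fun q _ =>
      mul_le_of_le_one_right (mul_nonneg (hw _ _) (hw _ _)) (hA1 _ _)
  have hS0 : 0 ≤ S := Finset.sum_nonneg fun u _ => hw _ _
  have hSle : S ≤ (1 - s) ^ h := by
    have := wt_total_pow hx h1 hs1 (h + 1)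
    rw [show 2 * (h + 1) = 2 * h + 2 by ring] at this
    refine this.trans ?_
    exact pow_le_pow_of_le_one (by linarith) (by linarith) (by omega)
  refine final_ineq h hh s S d (∑ p, ∑ q, w p * w q * A p q * (73 * J p q)) hs0 hs1 hS0 hSle hd1
    hdS (Finset.sum_nonneg fun p _ => Finset.sum_nonneg fun q _ => mul_nonneg
      (mul_nonneg (mul_nonneg (hw _ _) (hw _ _)) (hA0 _ _)) (by linarith [hJ0 p q])) ?_ ?_
  · intro hs2
    refine book w (hw _) A hA hAs (fun p q => 73 * J p q) (fun p q => by linarith [hJ0 p q]) ?_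
    intro p q hc
    have e1 := hcJ p q
    have e2 : (S / 6) ^ 2 ≤ (∑ u, w u * (A u p * A u q)) ^ 2 :=
      pow_le_pow_left₀ (by linarith) hc.le 2
    nlinarith
  · have : ∑ p, ∑ q, w p * w q * A p q * (73 * J p q) =
        73 * ∑ p, ∑ q, w p * w q * A p q * J p q := by
      simp only [Finset.mul_sum]
      exact Finset.sum_congr rfl fun p _ => Finset.sum_congr rfl fun q _ => by ring
    rw [this]; linarith

/-- Zykov symmetrisation -/
theorem symmetrise (G : Finset (Finset V)) (x : V → ℝ) (hx : ∀ v, 0 ≤ x v) (h1 : ∑ v, x v = 1) :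
    ∃ y : V → ℝ, (∀ v, 0 ≤ y v) ∧ ∑ v, y v = 1 ∧
      ∑ e ∈ G, ∏ v ∈ e, x v ≤ ∑ e ∈ G, ∏ v ∈ e, y v ∧
      ∀ u v, u ≠ v → 0 < y u → 0 < y v → ∃ e ∈ G, u ∈ e ∧ v ∈ e := by
  classical
  induction hn : (univ.filter fun v => 0 < x v).card using Nat.strong_induction_on
    generalizing x with
  | _ n ih =>
  by_cases hc : ∀ u v, u ≠ v → 0 < x u → 0 < x v → ∃ e ∈ G, u ∈ e ∧ v ∈ e
  · exact ⟨x, hx, h1, le_rfl, hc⟩
  push Not at hc
  obtain ⟨u, v, huv, hu, hv, hne⟩ := hc
  let mv : V → V → V → ℝ := fun u v z => if z = u then x u + x v else if z = v then 0 else x z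
  have hmv : ∀ u v, u ≠ v → 0 < x u → 0 < x v → (∀ z, 0 ≤ mv u v z) ∧ ∑ z, mv u v z = 1 ∧
      (univ.filter fun z => 0 < mv u v z).card < n := by
    intro u v huv hu hv
    refine ⟨fun z => ?_, ?_, ?_⟩
    · simp only [mv]
      split_ifs
      · linarith
      · exact le_rfl
      · exact hx z
    · have : ∀ z, mv u v z = x z + (if z = u then x v else 0) - (if z = v then x v else 0) := by
        intro z
        simp only [mv]
        by_cases c1 : z = u
        · subst c1; simp [huv]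
        · by_cases c2 : z = v
          · subst c2; simp [c1]
          · simp [c1, c2]
      simp only [this, Finset.sum_sub_distrib, Finset.sum_add_distrib, h1]
      simp
    · rw [← hn]
      refine Finset.card_lt_card ⟨fun z hz => ?_, fun hsub => ?_⟩
      · simp only [mem_filter, mem_univ, true_and, mv] at hz ⊢
        split_ifs at hz with c1 c2
        · rw [c1]; exact hu
        · exact absurd hz (lt_irrefl _)
        · exact hz
      · have := hsub (mem_filter.2 ⟨mem_univ v, hv⟩)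
        simp [mv, huv.symm] at this
  have key : ∀ e ∈ G, (x u + x v) * ∏ z ∈ e, x z =
      x u * ∏ z ∈ e, mv u v z + x v * ∏ z ∈ e, mv v u z := by
    have aux : ∀ (u v : V) (e : Finset V), u ≠ v → u ∈ e → v ∉ e → (x u + x v) * ∏ z ∈ e, x z =
        x u * ∏ z ∈ e, mv u v z ∧ ∏ z ∈ e, mv v u z = 0 := by
      intro u v e huv hu hv
      constructor
      · rw [← Finset.mul_prod_erase e _ hu, ← Finset.mul_prod_erase e _ hu]
        have : ∏ z ∈ e.erase u, mv u v z = ∏ z ∈ e.erase u, x z := by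
          refine Finset.prod_congr rfl fun z hz => ?_
          have c1 : z ≠ u := Finset.ne_of_mem_erase hz
          have c2 : z ≠ v := fun c => hv (c ▸ Finset.mem_of_mem_erase hz)
          simp [mv, c1, c2]
        rw [this]
        simp only [mv, if_true]
        ring
      · exact Finset.prod_eq_zero hu (by simp [mv, huv])
    intro e he
    by_cases c1 : u ∈ e
    · obtain ⟨a1, a2⟩ := aux u v e huv c1 (hne e he c1)
      rw [a1, a2]; ring
    · by_cases c2 : v ∈ e
      · obtain ⟨a1, a2⟩ := aux v u e huv.symm c2 c1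
        rw [add_comm, a1, a2]; ring
      · have a1 : ∏ z ∈ e, mv u v z = ∏ z ∈ e, x z := Finset.prod_congr rfl fun z hz => by
          have c3 : z ≠ u := fun c => c1 (c ▸ hz)
          have c4 : z ≠ v := fun c => c2 (c ▸ hz)
          simp [mv, c3, c4]
        have a2 : ∏ z ∈ e, mv v u z = ∏ z ∈ e, x z := Finset.prod_congr rfl fun z hz => by
          have c3 : z ≠ u := fun c => c1 (c ▸ hz)
          have c4 : z ≠ v := fun c => c2 (c ▸ hz)
          simp [mv, c3, c4]
        rw [a1, a2]; ring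
  have key2 : (x u + x v) * ∑ e ∈ G, ∏ z ∈ e, x z =
      x u * ∑ e ∈ G, ∏ z ∈ e, mv u v z + x v * ∑ e ∈ G, ∏ z ∈ e, mv v u z := by
    simp only [Finset.mul_sum, ← Finset.sum_add_distrib]
    exact Finset.sum_congr rfl key
  by_cases c : ∑ e ∈ G, ∏ z ∈ e, x z ≤ ∑ e ∈ G, ∏ z ∈ e, mv u v z
  · obtain ⟨a1, a2, a3⟩ := hmv u v huv hu hv
    obtain ⟨y, y1, y2, y3, y4⟩ := ih _ a3 (mv u v) a1 a2 rfl
    exact ⟨y, y1, y2, c.trans y3, y4⟩
  · obtain ⟨a1, a2, a3⟩ := hmv v u huv.symm hv hu
    obtain ⟨y, y1, y2, y3, y4⟩ := ih _ a3 (mv v u) a1 a2 rfl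
    refine ⟨y, y1, y2, le_trans ?_ y3, y4⟩
    push Not at c
    by_contra c'
    push Not at c'
    nlinarith [mul_lt_mul_of_pos_left c hu, mul_lt_mul_of_pos_left c' hv]

end Pool.Agent.H255Z.WO
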