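import Pool.Agent.H255Z.WO.Girth
import Pool.Agent.H255Z.WO.Upper2
import Pool.Agent.H255Z.WO.Lim

/-! The lower-bound hypergraph: odd bipartite edges together with a sparse partite part. -/

namespace Pool.Agent.H255Z.WO

open Finset

/-- vertices: side, colour, group element -/
abbrev VV (k r M : ℕ) := Bool × Fin k × Equiv.Perm (Wd r M)

noncomputable instance (k r M : ℕ) : DecidableEq (VV k r M) := Classical.decEq _

noncomputable instance (r M : ℕ) : Fintype (Equiv.Perm (Wd r M)) := Fintype.ofFinite _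

variable {k r M : ℕ}

/-- the rainbow set given by a tuple of group elements -/
noncomputable def tup (g : Fin k → Equiv.Perm (Wd r M)) : Finset (VV k r M) :=
  univ.image fun c => (false, c, g c)

/-- sparse edges -/
def Hy (e : Finset (VV k r M)) : Prop :=
  ∃ (g : Fin k → Equiv.Perm (Wd r M)) (ρ : Fin r), (List.ofFn g).prod = sg M ρ ∧ e = tup g

/-- odd number of vertices on the second side -/
def OddS (e : Finset (VV k r M)) : Prop := Odd (e.filter fun v => v.1 = true).card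

open Classical in
/-- the lower-bound hypergraph -/
noncomputable def GG (k r M : ℕ) : Finset (Finset (VV k r M)) :=
  univ.filter fun e => e.card = k ∧ (OddS e ∨ Hy e)

theorem mem_GG {e : Finset (VV k r M)} : e ∈ GG k r M ↔ e.card = k ∧ (OddS e ∨ Hy e) := by
  simp [GG]

theorem mem_tup {g : Fin k → Equiv.Perm (Wd r M)} {v : VV k r M} :
    v ∈ tup g ↔ v = (false, v.2.1, g v.2.1) := by
  unfold tup
  rw [mem_image]
  constructor
  · rintro ⟨c, -, rfl⟩; rfl
  · intro h; exact ⟨v.2.1, mem_univ _, h.symm⟩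

theorem card_tup (g : Fin k → Equiv.Perm (Wd r M)) : (tup g).card = k := by
  unfold tup
  rw [Finset.card_image_of_injective _ (fun c c' h => (Prod.ext_iff.1 (Prod.ext_iff.1 h).2).1)]
  simp

theorem tup_col {g : Fin k → Equiv.Perm (Wd r M)} {v w : VV k r M} (hv : v ∈ tup g)
    (hw : w ∈ tup g) (h : v.2.1 = w.2.1) : v = w := by
  rw [mem_tup.1 hv, mem_tup.1 hw, h]

theorem tup_swap {g g' : Fin k → Equiv.Perm (Wd r M)} {K : Finset (VV k r M)} {b b' : VV k r M}
    (hK : K.card + 1 ≤ k) (h : insert b K = tup g) (h' : insert b' K = tup g') (hb : b ≠ b') :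
    b'.2.1 = b.2.1 ∧ (∀ c, c ≠ b.2.1 → g c = g' c) ∧ g b.2.1 ≠ g' b.2.1 := by
  have m1 : b ∈ tup g := h ▸ mem_insert_self _ _
  have m2 : b' ∈ tup g' := h' ▸ mem_insert_self _ _
  have n2 : b' ∉ K := fun hc => by
    have := card_tup g'
    rw [← h', Finset.insert_eq_of_mem hc] at this
    omega
  have c1 : b'.2.1 = b.2.1 := by
    have : ((false, b'.2.1, g b'.2.1) : VV k r M) ∈ insert b K := h ▸ mem_tup.2 rfl
    rcases mem_insert.1 this with e | e
    · rw [← e]
    · have e2 : ((false, b'.2.1, g b'.2.1) : VV k r M) ∈ tup g' := h' ▸ mem_insert_of_mem e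
      exact absurd (tup_col e2 m2 rfl ▸ e) n2
  refine ⟨c1, fun c hc => ?_, fun e => hb ?_⟩
  · have : ((false, c, g c) : VV k r M) ∈ insert b K := h ▸ mem_tup.2 rfl
    rcases mem_insert.1 this with e | e
    · exact absurd (by rw [← e]) hc
    · have e2 : ((false, c, g c) : VV k r M) ∈ tup g' := h' ▸ mem_insert_of_mem e
      exact (Prod.ext_iff.1 (Prod.ext_iff.1 (mem_tup.1 e2)).2).2
  · rw [mem_tup.1 m1, mem_tup.1 m2, c1, e]

theorem no_walk {N : ℕ} (hN : 0 < N) (hM : 2 * N ≤ M) (K : Finset (VV k r M))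
    (hK : K.card + 2 ≤ k) (a b : ℕ → VV k r M)
    (h1 : ∀ j, Hy (insert (a j) (insert (b j) K)))
    (h2 : ∀ j, Hy (insert (a j) (insert (b (j + 1)) K)))
    (ha : ∀ j, a (j + 1) ≠ a j) (hb : ∀ j, b (j + 1) ≠ b j) (h5 : b N = b 0) : False := by
  choose g ρ hg hg' using h1
  choose g' ρ' hh hh' using h2
  have cK : ∀ v, (insert v K).card + 1 ≤ k := fun v => by
    have := Finset.card_insert_le v K; omega
  have s1 := fun j => tup_swap (cK (a j)) ((Finset.insert_comm _ _ _).trans (hg' j))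
    ((Finset.insert_comm _ _ _).trans (hh' j)) (hb j).symm
  have s2 := fun j => tup_swap (cK (b (j + 1))) (hh' j) (hg' (j + 1)) (ha j).symm
  have ca : ∀ j, (a j).2.1 = (a 0).2.1 := fun j => by
    induction j with
    | zero => rfl
    | succ j ih => rw [(s2 j).1, ih]
  have cb : ∀ j, (b j).2.1 = (b 0).2.1 := fun j => by
    induction j with
    | zero => rfl
    | succ j ih => rw [(s1 j).1, ih]
  have mb : ∀ j, b j ∈ tup (g j) := fun j => hg' j ▸ mem_insert_of_mem (mem_insert_self _ _)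
  have hαβ : (a 0).2.1 ≠ (b 0).2.1 := by
    intro e
    have e2 := tup_col (hg' 0 ▸ mem_insert_self _ _) (mb 0) e
    have := card_tup (g 0)
    rw [← hg' 0, e2, Finset.insert_eq_of_mem (mem_insert_self _ _)] at this
    have := cK (b 0)
    omega
  refine no_walk_fun hN hM _ _ hαβ g g' ρ ρ' (fun j _ => hg j) (fun j _ => hh j)
    (fun j _ => cb j ▸ (s1 j).2.1) (fun j _ => cb j ▸ (s1 j).2.2)
    (fun j _ => ca j ▸ (s2 j).2.1) (fun j _ => ca j ▸ (s2 j).2.2) ?_
  have e1 := mem_tup.1 (mb N)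
  have e2 := mem_tup.1 (mb 0)
  rw [h5] at e1
  exact (Prod.ext_iff.1 (Prod.ext_iff.1 (e1.symm.trans e2)).2).2

theorem hy_not_odd {p q : Finset (VV k r M)} (h : Hy (p ∪ q)) : ¬ OddS p := by
  obtain ⟨g, ρ, -, h⟩ := h
  have : (p.filter fun v => v.1 = true) = ∅ := by
    rw [Finset.filter_eq_empty_iff]
    intro v hv
    have : v ∈ tup g := h ▸ mem_union_left _ hv
    rw [mem_tup.1 this]; simp
  unfold OddS
  rw [this]; simp

theorem disj_of {V : Type*} [DecidableEq V] {m : ℕ} {p q : Finset V} (hp : p.card ≤ m)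
    (hq : q.card ≤ m) (h : (p ∪ q).card = m + m) : Disjoint p q := by
  rw [← Finset.card_union_eq_card_add_card]
  have := Finset.card_union_le p q
  omega

theorem edge_cases {m : ℕ} {p q : Finset (VV (m + m) r M)} (hp : p.card ≤ m) (hq : q.card ≤ m)
    (h : p ∪ q ∈ GG (m + m) r M) :
    (OddS p ∧ ¬ OddS q) ∨ (¬ OddS p ∧ OddS q) ∨ (¬ OddS p ∧ ¬ OddS q ∧ Hy (p ∪ q)) := by
  obtain ⟨h1, h2 | h2⟩ := mem_GG.1 h
  · unfold OddS at h2 ⊢
    rw [Finset.filter_union, Finset.card_union_of_disjoint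
      (Finset.disjoint_filter_filter (disj_of hp hq h1)), Nat.odd_add] at h2
    simp only [← Nat.not_odd_iff_even] at h2
    tauto
  · exact Or.inr (Or.inr ⟨hy_not_odd h2, hy_not_odd (Finset.union_comm p q ▸ h2), h2⟩)

theorem no_triangle {m : ℕ} (hm : 0 < m) {p q s : Finset (VV (m + m) r M)} (hp : p.card ≤ m)
    (hq : q.card ≤ m) (hs : s.card ≤ m) (h1 : Hy (p ∪ q)) (h2 : Hy (p ∪ s)) (h3 : Hy (q ∪ s)) :
    False := by
  obtain ⟨g1, -, -, h1⟩ := h1
  obtain ⟨g2, -, -, h2⟩ := h2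
  obtain ⟨g3, -, -, h3⟩ := h3
  have d1 := disj_of hp hq (h1 ▸ card_tup g1)
  have d3 := disj_of hq hs (h3 ▸ card_tup g3)
  obtain ⟨v, hv⟩ : q.Nonempty := by
    rw [← Finset.card_pos]
    have := Finset.card_union_le p q
    rw [h1, card_tup] at this
    omega
  have : ((false, v.2.1, g2 v.2.1) : VV (m + m) r M) ∈ p ∪ s := h2 ▸ mem_tup.2 rfl
  rcases mem_union.1 this with e | e
  · have m1 : ((false, v.2.1, g2 v.2.1) : VV (m + m) r M) ∈ tup g1 := h1 ▸ mem_union_left q e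
    have m2 : v ∈ tup g1 := h1 ▸ mem_union_right p hv
    have e2 := tup_col m1 m2 rfl
    rw [e2] at e
    exact Finset.disjoint_left.1 d1 e hv
  · have m1 : ((false, v.2.1, g2 v.2.1) : VV (m + m) r M) ∈ tup g3 := h3 ▸ mem_union_right q e
    have m2 : v ∈ tup g3 := h3 ▸ mem_union_left s hv
    have e2 := tup_col m1 m2 rfl
    rw [e2] at e
    exact Finset.disjoint_left.1 d3 hv e

theorem ins_union {V : Type*} [DecidableEq V] (a b : V) (U W : Finset V) :
    insert a U ∪ insert b W = insert a (insert b (U ∪ W)) := by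
  rw [Finset.insert_union, Finset.union_insert]

theorem no_four (hM : 4 ≤ M) (C U : Finset (VV k r M)) (hK : (C ∪ U).card + 2 ≤ k)
    (b b' z z' : VV k r M) (hb : b ≠ b') (hz : z ≠ z') (h1 : Hy (insert b C ∪ insert z U))
    (h2 : Hy (insert b' C ∪ insert z U)) (h3 : Hy (insert b C ∪ insert z' U))
    (h4 : Hy (insert b' C ∪ insert z' U)) : False := by
  rw [ins_union] at h1 h2 h3 h4
  refine no_walk (N := 2) (by norm_num) hM (C ∪ U) hK (fun j => if Even j then b else b')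
    (fun j => if Even j then z else z') (fun j => ?_) (fun j => ?_) (fun j => ?_) (fun j => ?_)
    (by simp)
  all_goals by_cases h : Even j <;> simp only [Nat.even_add_one, h, if_true, if_false,
    not_true, not_false_iff]
  exacts [h1, h4, h3, h2, hb.symm, hb, hz.symm, hz]

theorem propA {c c' p q h1 h2 h3 h4 h5 : Prop} (ho : c ∨ c')
    (t1 : (c ∧ ¬ p) ∨ (¬ c ∧ p) ∨ (¬ c ∧ ¬ p ∧ h1))
    (t2 : (c' ∧ ¬ p) ∨ (¬ c' ∧ p) ∨ (¬ c' ∧ ¬ p ∧ h2))
    (t3 : (c ∧ ¬ q) ∨ (¬ c ∧ q) ∨ (¬ c ∧ ¬ q ∧ h3))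
    (t4 : (c' ∧ ¬ q) ∨ (¬ c' ∧ q) ∨ (¬ c' ∧ ¬ q ∧ h4))
    (t5 : (p ∧ ¬ q) ∨ (¬ p ∧ q) ∨ (¬ p ∧ ¬ q ∧ h5)) : h5 := by
  grind

theorem propB {c c' p q h1 h2 h3 h4 h5 : Prop} (o1 : ¬ c) (o2 : ¬ c')
    (t1 : (c ∧ ¬ p) ∨ (¬ c ∧ p) ∨ (¬ c ∧ ¬ p ∧ h1))
    (t2 : (c' ∧ ¬ p) ∨ (¬ c' ∧ p) ∨ (¬ c' ∧ ¬ p ∧ h2))
    (t3 : (c ∧ ¬ q) ∨ (¬ c ∧ q) ∨ (¬ c ∧ ¬ q ∧ h3))
    (t4 : (c' ∧ ¬ q) ∨ (¬ c' ∧ q) ∨ (¬ c' ∧ ¬ q ∧ h4))
    (t5 : (p ∧ ¬ q) ∨ (¬ p ∧ q) ∨ (¬ p ∧ ¬ q ∧ h5)) (t6 : h1 → h3 → h5 → False) :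
    (p ↔ ¬ q) ∧ (¬ p → h1 ∧ h2) ∧ (¬ q → h3 ∧ h4) := by
  grind

theorem no_config {j N : ℕ} (hN : 0 < N) (hM : 2 * N ≤ M) (hM4 : 4 ≤ M)
    (C U W : Finset (VV (j + 1 + (j + 1)) r M)) (hC : C.card ≤ j) (hU : U.card ≤ j)
    (hW : W.card ≤ j) (c c' : VV (j + 1 + (j + 1)) r M) (hc : c ≠ c')
    (a b : ℕ → VV (j + 1 + (j + 1)) r M)
    (h1 : ∀ i, Rel (GG _ r M) C U W c c' (a i) (b i))
    (h2 : ∀ i, Rel (GG _ r M) C U W c c' (a i) (b (i + 1)))
    (ha : ∀ i, a (i + 1) ≠ a i) (hb : ∀ i, b (i + 1) ≠ b i) (h5 : b N = b 0) : False := by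
  have ci : ∀ (v : VV (j + 1 + (j + 1)) r M) (T : Finset _), T.card ≤ j →
      (insert v T).card ≤ j + 1 := fun v T h => (Finset.card_insert_le _ _).trans (by omega)
  have cu : ∀ (T T' : Finset (VV (j + 1 + (j + 1)) r M)), T.card ≤ j → T'.card ≤ j →
      (T ∪ T').card + 2 ≤ j + 1 + (j + 1) := fun T T' h h' => by
    have := Finset.card_union_le T T'; omega
  by_cases ho : OddS (insert c C) ∨ OddS (insert c' C)
  · have key : ∀ z z', Rel (GG _ r M) C U W c c' z z' → Hy (insert z (insert z' (U ∪ W))) := by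
      intro z z' ⟨r1, r2, r3, r4, r5⟩
      have t1 := edge_cases (ci _ _ hC) (ci _ _ hU) r1
      have t2 := edge_cases (ci _ _ hC) (ci _ _ hU) r2
      have t3 := edge_cases (ci _ _ hC) (ci _ _ hW) r3
      have t4 := edge_cases (ci _ _ hC) (ci _ _ hW) r4
      have t5 := edge_cases (ci _ _ hU) (ci _ _ hW) r5
      rw [← ins_union]
      exact propA ho t1 t2 t3 t4 t5
    exact no_walk hN hM (U ∪ W) (cu _ _ hU hW) a b (fun i => key _ _ (h1 i))
      (fun i => key _ _ (h2 i)) ha hb h5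
  push Not at ho
  have key : ∀ z z', Rel (GG _ r M) C U W c c' z z' →
      (OddS (insert z U) ↔ ¬ OddS (insert z' W)) ∧
      (¬ OddS (insert z U) → Hy (insert c C ∪ insert z U) ∧ Hy (insert c' C ∪ insert z U)) ∧
      (¬ OddS (insert z' W) → Hy (insert c C ∪ insert z' W) ∧ Hy (insert c' C ∪ insert z' W)) := by
    intro z z' ⟨r1, r2, r3, r4, r5⟩
    have t1 := edge_cases (ci _ _ hC) (ci _ _ hU) r1
    have t2 := edge_cases (ci _ _ hC) (ci _ _ hU) r2
    have t3 := edge_cases (ci _ _ hC) (ci _ _ hW) r3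
    have t4 := edge_cases (ci _ _ hC) (ci _ _ hW) r4
    have t5 := edge_cases (ci _ _ hU) (ci _ _ hW) r5
    have t6 := no_triangle (r := r) (M := M) (Nat.succ_pos j) (ci c _ hC) (ci z _ hU) (ci z' _ hW)
    exact propB ho.1 ho.2 t1 t2 t3 t4 t5 t6
  have k1 := key _ _ (h1 0)
  have k2 := key _ _ (h2 0)
  have k3 := key _ _ (h1 1)
  by_cases o : OddS (insert (a 0) U)
  · have x1 := k1.2.2 (k1.1.1 o)
    have x2 := k2.2.2 (k2.1.1 o)
    exact no_four hM4 C W (cu _ _ hC hW) c c' _ _ hc (hb 0) x2.1 x2.2 x1.1 x1.2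
  · have o2 : ¬ OddS (insert (a 1) U) := fun h => o (k2.1.2 (k3.1.1 h))
    have x1 := k1.2.1 o
    have x2 := k3.2.1 o2
    exact no_four hM4 C U (cu _ _ hC hU) c c' _ _ hc (ha 0) x2.1 x2.2 x1.1 x1.2

theorem count_GG (k' M : ℕ) (hM : 0 < M) (r : ℕ) (hr : (k' + 1) ^ 2 * (2 * (k' + 1)) ^ k' < r) :
    (1 : ℝ) / 2 < ((univ.filter fun F : Fin (k' + 1) → VV (k' + 1) r M =>
      univ.image F ∈ GG (k' + 1) r M).card : ℝ) / (Fintype.card (VV (k' + 1) r M)) ^ (k' + 1) := by
  classical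
  set t := Fintype.card (Equiv.Perm (Wd r M)) with ht
  set n := Fintype.card (VV (k' + 1) r M) with hn
  have hnt : n = 2 * (k' + 1) * t := by simp [hn, ht, mul_assoc]
  have ht0 : 0 < t := Fintype.card_pos
  have hn0 : 0 < n := Fintype.card_pos
  let O : Finset (Fin (k' + 1) → VV (k' + 1) r M) :=
    univ.filter fun F => Odd (univ.filter fun i => (F i).1 = true).card
  let I : Finset (Fin (k' + 1) → VV (k' + 1) r M) := univ.filter fun F => Function.Injective F
  let B : Finset (Fin (k' + 1) → VV (k' + 1) r M) := univ.filter fun F => Hy (univ.image F)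
  have hO : n ^ (k' + 1) ≤ 2 * O.card := by
    let fl : (Fin (k' + 1) → VV (k' + 1) r M) → (Fin (k' + 1) → VV (k' + 1) r M) :=
      fun F => Function.update F 0 (!(F 0).1, (F 0).2)
    have e1 : Oᶜ.card ≤ O.card := by
      refine Finset.card_le_card_of_injOn fl ?_ ?_
      · intro F hF
        simp only [O, coe_compl, coe_filter, mem_univ, true_and, Set.mem_compl_iff,
          Set.mem_ofPred_eq, Finset.card_filter, Fin.sum_univ_succ] at hF ⊢
        have : ∀ i : Fin k', fl F i.succ = F i.succ := fun i =>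
          Function.update_of_ne (Fin.succ_ne_zero i) _ _
        simp only [this]
        simp only [fl, Function.update_self]
        rw [Nat.odd_add] at hF ⊢
        cases h : (F 0).1 <;> simp [h] at hF ⊢ <;> exact hF
      · have : Function.Involutive fl := by
          intro F
          simp [fl]
        exact this.injective.injOn
    have e2 := Finset.card_add_card_compl O
    rw [Fintype.card_fun, Fintype.card_fin, ← hn] at e2
    omega
  have hI : n.descFactorial (k' + 1) ≤ I.card := by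
    have : n.descFactorial (k' + 1) = (univ : Finset (Fin (k' + 1) ↪ VV (k' + 1) r M)).card := by
      rw [card_univ, Fintype.card_embedding_eq, Fintype.card_fin]
    rw [this]
    refine Finset.card_le_card_of_injOn (fun g => g) ?_ ?_
    · intro g _
      simp only [I, coe_filter, mem_univ, true_and, Set.mem_ofPred_eq]
      exact g.injective
    · intro g _ g' _ h
      exact DFunLike.coe_injective h
  have hB : r * t ^ k' ≤ B.card := by
    have : r * t ^ k' = (univ : Finset (Fin r × (Fin k' → Equiv.Perm (Wd r M)))).card := by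
      simp [ht]
    rw [this]
    refine Finset.card_le_card_of_injOn (fun p c => (false, c,
      (Fin.cons (sg M p.1 * (List.ofFn p.2).prod⁻¹) p.2 : Fin (k' + 1) → _) c)) ?_ ?_
    · intro p _
      simp only [B, coe_filter, mem_univ, true_and, Set.mem_ofPred_eq]
      refine ⟨_, p.1, ?_, rfl⟩
      simp [List.ofFn_succ]
    · intro p _ p' _ h
      have e : ∀ c, (Fin.cons (sg M p.1 * (List.ofFn p.2).prod⁻¹) p.2 : Fin (k' + 1) → _) c =
          (Fin.cons (sg M p'.1 * (List.ofFn p'.2).prod⁻¹) p'.2 : Fin (k' + 1) → _) c :=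
        fun c => (Prod.ext_iff.1 (Prod.ext_iff.1 (congrFun h c)).2).2
      have e2 : p.2 = p'.2 := funext fun i => by simpa using e i.succ
      have e3 := e 0
      simp only [Fin.cons_zero, e2] at e3
      exact Prod.ext (sg_injective hM (mul_right_cancel e3)) e2
  have hodd : ∀ F ∈ O ∩ I, OddS (univ.image F) ∧ (univ.image F).card = k' + 1 := by
    intro F hF
    rw [mem_inter] at hF
    have e1 := (mem_filter.1 hF.1).2
    have e2 := (mem_filter.1 hF.2).2
    refine ⟨?_, by rw [Finset.card_image_of_injective _ e2]; simp⟩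
    unfold OddS
    rw [Finset.filter_image, Finset.card_image_of_injective _ e2]
    exact e1
  have hdisj : Disjoint (O ∩ I) B := by
    rw [Finset.disjoint_left]
    intro F h1 h2
    have := (mem_filter.1 h2).2
    exact hy_not_odd (q := ∅) (by simpa using this) (hodd F h1).1
  have hsub : (O ∩ I) ∪ B ⊆ univ.filter fun F : Fin (k' + 1) → VV (k' + 1) r M =>
      univ.image F ∈ GG (k' + 1) r M := by
    intro F hF
    rw [mem_filter, mem_GG]
    refine ⟨mem_univ _, ?_⟩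
    rcases mem_union.1 hF with h | h
    · exact ⟨(hodd F h).2, Or.inl (hodd F h).1⟩
    · have := (mem_filter.1 h).2
      refine ⟨?_, Or.inr this⟩
      obtain ⟨g, -, -, e⟩ := this
      rw [e, card_tup]
  have c1 := Finset.card_le_card hsub
  rw [Finset.card_union_of_disjoint hdisj] at c1
  have c2 := Finset.card_union_add_card_inter O I
  have c3 := Finset.card_le_univ (O ∪ I)
  rw [Fintype.card_fun, Fintype.card_fin, ← hn] at c3
  have c4 := desc_ge n (k' + 1)
  have hnR : (0 : ℝ) < n := by exact_mod_cast hn0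
  have c5 : (n : ℝ) ^ (k' + 1) - (k' + 1) ^ 2 * n ^ k' ≤ n.descFactorial (k' + 1) := by
    refine le_of_mul_le_mul_left ?_ hnR
    refine le_trans (le_of_eq ?_) c4
    push_cast; ring
  have c6 : (k' + 1) ^ 2 * n ^ k' < r * t ^ k' := by
    rw [hnt, mul_pow, ← mul_assoc]
    exact Nat.mul_lt_mul_of_pos_right hr (pow_pos ht0 _)
  have c7 : ((k' : ℝ) + 1) ^ 2 * n ^ k' < r * t ^ k' := by exact_mod_cast c6
  have c8 : n ^ (k' + 1) + 2 * n.descFactorial (k' + 1) + 2 * (r * t ^ k') ≤ 2 * n ^ (k' + 1) +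
      2 * (univ.filter fun F : Fin (k' + 1) → VV (k' + 1) r M =>
      univ.image F ∈ GG (k' + 1) r M).card := by omega
  have c9 : (n : ℝ) ^ (k' + 1) + 2 * n.descFactorial (k' + 1) + 2 * (r * t ^ k') ≤
      2 * n ^ (k' + 1) + 2 * (univ.filter fun F : Fin (k' + 1) → VV (k' + 1) r M =>
      univ.image F ∈ GG (k' + 1) r M).card := by exact_mod_cast c8
  rw [lt_div_iff₀ (by positivity)]
  linarith

end Pool.Agent.H255Z.WO
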