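import Pool.Agent.H255Z.WO.Lim

namespace Pool.Agent.H255Z.WO

open Finset

variable {k m : ℕ} {L : Finset (Finset (Fin m))}

theorem card_ext {n t : ℕ} (H : Finset (Finset (Fin n))) (hH : ∀ A ∈ H, A.card = k)
    (e : Finset (Fin t)) (he : e.card = k) :
    k.factorial * H.card * n ^ (t - k) ≤
      (univ.filter fun f : Fin t → Fin n => e.image f ∈ H).card := by
  classical
  have h1 := card_tuples (κ := e) H (fun A hA => by rw [hH A hA, Fintype.card_coe, he])
  rw [Fintype.card_coe, he] at h1
  have h2 : n ^ (t - k) = (univ : Finset ({i // i ∉ e} → Fin n)).card := by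
    simp [Fintype.card_subtype_compl, he]
  rw [← h1, h2, ← Finset.card_product]
  refine Finset.card_le_card_of_injOn
    (fun p i => if h : i ∈ e then p.1 ⟨i, h⟩ else p.2 ⟨i, h⟩) ?_ ?_
  · intro p hp
    simp only [coe_product, Set.mem_prod, mem_coe, mem_filter, mem_univ, true_and,
      and_true] at hp
    simp only [coe_filter, mem_univ, true_and, Set.mem_ofPred_eq]
    convert hp using 1
    ext v
    simp only [mem_image, mem_univ, true_and]
    constructor
    · rintro ⟨i, hi, rfl⟩
      exact ⟨⟨i, hi⟩, by rw [dif_pos hi]⟩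
    · rintro ⟨i, rfl⟩
      exact ⟨i.1, i.2, by rw [dif_pos i.2]⟩
  · intro p _ p' _ h
    refine Prod.ext (funext fun i => ?_) (funext fun i => ?_)
    · have := congrFun h i.1
      simpa [i.2] using this
    · have := congrFun h i.1
      simpa [i.2] using this

theorem embed_of_dense {n t : ℕ} (hm : 0 < m) (hn : 0 < n) (hL : ∀ e ∈ L, e.card = k)
    (H : Finset (Finset (Fin n))) (G : Finset (Finset (Fin t))) (hG : ∀ e ∈ G, e.card = k)
    (φ : Fin m → Fin t) (hφ : ∀ e ∈ L, e.image φ ∈ G) (B : Finset (Fin t → Fin n))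
    (hB : ∀ f ∈ B, ∀ e ∈ G, e.image f ∈ H) (c : ℝ) (hc : 0 ≤ c) (hcB : c * (n : ℝ) ^ t ≤ B.card)
    (hbig : ((t * m : ℕ) : ℝ) ^ 2 < c ^ (m ^ t) * n) :
    ∃ f : Fin m ↪ Fin n, ∀ e ∈ L, e.map f ∈ H := by
  classical
  have : Nonempty (Fin m) := ⟨⟨0, hm⟩⟩
  have h1 := H362R2.CM.box_count (ι := Fin m) (univ : Finset (Fin n)) (by simpa using hn) t B c hc
    (fun _ _ _ => mem_univ _) (by simpa using hcB)
  simp only [Fintype.card_fin, card_univ] at h1
  let I : Finset (Fin t → Fin m → Fin n) :=
    univ.filter fun A => Function.Injective (Function.uncurry A)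
  have h2 : n.descFactorial (t * m) ≤ I.card := by
    have : n.descFactorial (t * m) = (univ : Finset (Fin t × Fin m ↪ Fin n)).card := by
      simp [Fintype.card_embedding_eq]
    rw [this]
    refine Finset.card_le_card_of_injOn (fun g => Function.curry g) ?_ ?_
    · intro g _
      simp only [I, coe_filter, mem_univ, true_and, Set.mem_ofPred_eq, Function.uncurry_curry]
      exact g.injective
    · intro g _ g' _ h
      exact DFunLike.coe_injective (Function.curry_injective h)
  have h3 := desc_ge n (t * m)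
  have h4 : ¬ Disjoint (H362R2.CM.boxes univ (Fin m) B) I := by
    intro hd
    have e1 := Finset.card_le_univ (H362R2.CM.boxes univ (Fin m) B ∪ I)
    rw [Finset.card_union_of_disjoint hd] at e1
    simp only [Fintype.card_fun, Fintype.card_fin] at e1
    rw [← pow_mul, mul_comm m t] at e1
    have e2 : ((H362R2.CM.boxes univ (Fin m) B).card : ℝ) + I.card ≤ (n : ℝ) ^ (t * m) := by
      exact_mod_cast e1
    have e3 : (n.descFactorial (t * m) : ℝ) ≤ I.card := by exact_mod_cast h2
    have e4 : (0 : ℝ) < n := by exact_mod_cast hn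
    have e5 : (0 : ℝ) < (n : ℝ) ^ (t * m) := by positivity
    have e6 := mul_lt_mul_of_pos_left hbig e5
    have e7 : c ^ (m ^ t) * (n : ℝ) ^ (t * m) + n.descFactorial (t * m) ≤ (n : ℝ) ^ (t * m) := by
      linarith
    have e8 := mul_le_mul_of_nonneg_left e7 e4.le
    nlinarith
  rw [Finset.not_disjoint_iff] at h4
  obtain ⟨A, hA1, hA2⟩ := h4
  have hinj : Function.Injective (Function.uncurry A) := (mem_filter.1 hA2).2
  have hbox : ∀ τ : Fin t → Fin m, (fun i => A i (τ i)) ∈ B := by
    unfold H362R2.CM.boxes at hA1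
    simp only [mem_filter] at hA1
    exact hA1.2
  refine ⟨⟨fun v => A (φ v) v, fun v v' h => ?_⟩, fun e he => ?_⟩
  · have : (φ v, v) = (φ v', v') := hinj h
    exact (Prod.ext_iff.1 this).2
  · have hi : Set.InjOn φ e := Finset.card_image_iff.1 (by rw [hG _ (hφ e he), hL e he])
    have := hB _ (hbox (Function.invFunOn φ e)) _ (hφ e he)
    rw [Finset.image_image] at this
    rw [Finset.map_eq_image]
    convert this using 1
    refine Finset.image_congr fun v hv => ?_
    simp only [Function.Embedding.coeFn_mk, Function.comp]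
    rw [hi.leftInvOn_invFunOn hv]

/-- sampling upper bound -/
theorem upper_bound (hm : 0 < m) (hL : ∀ e ∈ L, e.card = k) (t : ℕ) (hkt : k ≤ t) (γ : ℝ)
    (hγ : 0 ≤ γ) (hall : ∀ G : Finset (Finset (Fin t)), (∀ e ∈ G, e.card = k) →
      γ * t.choose k ≤ G.card → ∃ φ : Fin m → Fin t, ∀ e ∈ L, e.image φ ∈ G) (d : ℝ)
    (hd : Filter.Tendsto (fun n : ℕ => (ex k L n : ℝ) / (n.choose k : ℝ)) Filter.atTop (nhds d)) :
    d ≤ γ := by
  classical
  by_contra hcon
  push Not at hcon
  obtain ⟨ε, hε, hεd⟩ : ∃ ε : ℝ, 0 < ε ∧ γ + 2 * ε < d := ⟨(d - γ) / 3, by linarith, by linarith⟩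
  set Q : ℝ := (Fintype.card (Finset (Finset (Fin t))) : ℝ) with hQ
  have hQ0 : 0 < Q := by rw [hQ]; exact_mod_cast Fintype.card_pos
  set c := ε / Q with hc
  have hc0 : 0 < c := div_pos hε hQ0
  have ev1 := hd.eventually (lt_mem_nhds hεd)
  have ev2 : ∀ᶠ n : ℕ in Filter.atTop, (γ + 2 * ε) * (k : ℝ) ^ 2 / ε < n :=
    tendsto_natCast_atTop_atTop.eventually (Filter.eventually_gt_atTop _)
  have ev3 : ∀ᶠ n : ℕ in Filter.atTop, ((t * m : ℕ) : ℝ) ^ 2 / c ^ (m ^ t) < n :=
    tendsto_natCast_atTop_atTop.eventually (Filter.eventually_gt_atTop _)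
  obtain ⟨n, h1, h2, h3, h4⟩ := (ev1.and (ev2.and (ev3.and (Filter.eventually_ge_atTop (k + 1))))).exists
  have hn : 0 < n := by omega
  have hnR : (0 : ℝ) < n := by exact_mod_cast hn
  have p1 : (0 : ℝ) < n.choose k := by exact_mod_cast Nat.choose_pos (by omega)
  have p2 : (0 : ℝ) < t.choose k := by exact_mod_cast Nat.choose_pos hkt
  rw [lt_div_iff₀ p1] at h1
  rw [div_lt_iff₀ hε] at h2
  rw [div_lt_iff₀ (pow_pos hc0 _)] at h3
  rcases ex_spec (k := k) (L := L) n with h0 | ⟨H, hH, hHc, hno⟩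
  · rw [h0] at h1
    have : 0 < (γ + 2 * ε) * n.choose k := by positivity
    simp at h1; linarith
  rw [← hHc] at h1
  apply hno
  have a1 : (γ + ε) * (n : ℝ) ^ k ≤ k.factorial * H.card := by
    have b1 := desc_ge n k
    rw [Nat.descFactorial_eq_factorial_mul_choose] at b1
    push_cast at b1
    have b2 : (0 : ℝ) < k.factorial := by exact_mod_cast k.factorial_pos
    have b3 := mul_le_mul_of_nonneg_left h1.le (mul_pos hnR b2).le
    have b4 := mul_le_mul_of_nonneg_left b1 (by linarith : 0 ≤ γ + 2 * ε)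
    have b5 : (γ + ε) * n ≤ (γ + 2 * ε) * (n - k ^ 2) := by nlinarith
    have b6 := mul_le_mul_of_nonneg_left b5 (pow_nonneg hnR.le k)
    refine le_of_mul_le_mul_left ?_ hnR
    nlinarith
  let P := (univ : Finset (Fin t)).powersetCard k
  have hP : P.card = t.choose k := by simp [P]
  let Gf : (Fin t → Fin n) → Finset (Finset (Fin t)) := fun f => P.filter fun e => e.image f ∈ H
  have a2 : (t.choose k : ℝ) * ((γ + ε) * (n : ℝ) ^ t) ≤ ∑ f, ((Gf f).card : ℝ) := by
    have b1 : ∑ f, (Gf f).card =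
        ∑ e ∈ P, (univ.filter fun f : Fin t → Fin n => e.image f ∈ H).card := by
      simp only [Gf, Finset.card_filter]
      exact Finset.sum_comm
    have b2 : P.card * (k.factorial * H.card * n ^ (t - k)) ≤ ∑ f, (Gf f).card := by
      rw [b1, ← smul_eq_mul, ← Finset.sum_const]
      exact Finset.sum_le_sum fun e he => card_ext H hH e (mem_powersetCard.1 he).2
    rw [hP] at b2
    have b3 : (t.choose k : ℝ) * (k.factorial * H.card * (n : ℝ) ^ (t - k)) ≤
        ∑ f, ((Gf f).card : ℝ) := by exact_mod_cast b2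
    refine le_trans (mul_le_mul_of_nonneg_left ?_ p2.le) b3
    have b4 : (n : ℝ) ^ t = n ^ k * n ^ (t - k) := by rw [← pow_add]; congr 1; omega
    rw [b4, ← mul_assoc]
    exact mul_le_mul_of_nonneg_right a1 (by positivity)
  let Good : Finset (Fin t → Fin n) := univ.filter fun f => γ * t.choose k ≤ (Gf f).card
  have a3 : ε * (n : ℝ) ^ t ≤ Good.card := by
    have b1 : ∑ f, ((Gf f).card : ℝ) ≤ ∑ f : Fin t → Fin n, (γ * t.choose k +
        if γ * t.choose k ≤ (Gf f).card then (t.choose k : ℝ) else 0) := by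
      refine Finset.sum_le_sum fun f _ => ?_
      have : ((Gf f).card : ℝ) ≤ t.choose k := by
        rw [← hP]; exact_mod_cast Finset.card_filter_le _ _
      have : 0 ≤ γ * t.choose k := by positivity
      split_ifs with h
      · linarith
      · push Not at h; linarith
    rw [Finset.sum_add_distrib, ← Finset.sum_filter, Finset.sum_const, Finset.sum_const,
      card_univ, Fintype.card_fun, Fintype.card_fin, Fintype.card_fin, nsmul_eq_mul,
      nsmul_eq_mul] at b1
    push_cast at b1
    refine le_of_mul_le_mul_left ?_ p2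
    have : (Good.card : ℝ) = (univ.filter fun f => γ * t.choose k ≤ (Gf f).card).card := rfl
    nlinarith
  have a4 : ∃ G, c * (n : ℝ) ^ t ≤ (Good.filter fun f => Gf f = G).card := by
    by_contra hc'
    push Not at hc'
    have b1 : Good.card = ∑ G, (Good.filter fun f => Gf f = G).card :=
      Finset.card_eq_sum_card_fiberwise (fun _ _ => mem_coe.2 (mem_univ _))
    have b2 : (Good.card : ℝ) < ∑ G : Finset (Finset (Fin t)), c * (n : ℝ) ^ t := by
      rw [b1]; push_cast
      exact Finset.sum_lt_sum_of_nonempty univ_nonempty fun G _ => hc' G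
    rw [Finset.sum_const, card_univ, nsmul_eq_mul, ← hQ, ← mul_assoc, hc,
      mul_div_cancel₀ _ hQ0.ne'] at b2
    linarith
  obtain ⟨G, hG⟩ := a4
  have a5 : (Good.filter fun f => Gf f = G).Nonempty := by
    rw [← Finset.card_pos]
    have : 0 < c * (n : ℝ) ^ t := by positivity
    exact_mod_cast this.trans_le hG
  obtain ⟨f0, hf0⟩ := a5
  rw [mem_filter] at hf0
  have hGk : ∀ e ∈ G, e.card = k := by
    intro e he
    rw [← hf0.2] at he
    exact (mem_powersetCard.1 (mem_filter.1 he).1).2
  obtain ⟨φ, hφ⟩ := hall G hGk (by rw [← hf0.2]; exact (mem_filter.1 hf0.1).2)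
  refine embed_of_dense hm hn hL H G hGk φ hφ _ ?_ c hc0.le hG (by linarith)
  intro f hf e he
  rw [← (mem_filter.1 hf).2] at he
  exact (mem_filter.1 he).2

end Pool.Agent.H255Z.WO
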