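import Pool.Agent.H255Z.WO.Lower
import Pool.Agent.H255Z.WO.Sample

/-! The two-centre wheel hypergraphs and their Turan densities. -/

namespace Pool.Agent.H255Z.WO

open Finset

/-- vertices of the wheel hypergraph: blocks, centres, rim, expansion vertices -/
abbrev VL (j N : ℕ) :=
  (Fin 3 × Fin j) ⊕ Bool ⊕ (Bool × ZMod N) ⊕ ((Unit ⊕ Bool × ZMod N) × Fin (j + j))

noncomputable instance (j N : ℕ) : DecidableEq (VL j N) := Classical.decEq _

/-- index set of the edges -/
abbrev EL (N : ℕ) := (Bool × Bool × ZMod N) ⊕ (Bool × ZMod N) ⊕ (Unit ⊕ Bool × ZMod N)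

section Shape

variable {V : Type*} [DecidableEq V] {N : ℕ}

/-- the edges, in terms of the images of the named parts -/
def shape (Bk : Fin 3 → Finset V) (c : Bool → V) (ρ : Bool → ZMod N → V)
    (X : Unit ⊕ Bool × ZMod N → Finset V) : EL N → Finset V
  | .inl (ε, s, i) => insert (c ε) (Bk 0) ∪ insert (ρ s i) (Bk (if s then 2 else 1))
  | .inr (.inl (δ, i)) => insert (ρ false i) (Bk 1) ∪
      insert (ρ true (if δ then i + 1 else i)) (Bk 2)
  | .inr (.inr (.inl u)) => insert (c false) (insert (c true) (X (.inl u)))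
  | .inr (.inr (.inr (s, i))) => insert (ρ s (i + 1)) (insert (ρ s i) (X (.inr (s, i))))

theorem shape_image {V' : Type*} [DecidableEq V'] (f : V → V') (Bk : Fin 3 → Finset V)
    (c : Bool → V) (ρ : Bool → ZMod N → V) (X : Unit ⊕ Bool × ZMod N → Finset V) (e : EL N) :
    (shape Bk c ρ X e).image f = shape (fun a => (Bk a).image f) (fun a => f (c a))
      (fun a i => f (ρ a i)) (fun a => (X a).image f) e := by
  rcases e with ⟨ε, s, i⟩ | ⟨δ, i⟩ | u | ⟨s, i⟩ <;>
    simp only [shape, Finset.image_union, Finset.image_insert]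

theorem shape_card {j : ℕ} (Bk : Fin 3 → Finset V) (c : Bool → V) (ρ : Bool → ZMod N → V)
    (X : Unit ⊕ Bool × ZMod N → Finset V) (hB : ∀ a, (Bk a).card ≤ j)
    (hX : ∀ a, (X a).card ≤ j + j) (e : EL N) : (shape Bk c ρ X e).card ≤ j + 1 + (j + 1) := by
  have ci : ∀ (v : V) (a : Fin 3), (insert v (Bk a)).card ≤ j + 1 := fun v a =>
    (Finset.card_insert_le _ _).trans (Nat.succ_le_succ (hB a))
  have cx : ∀ (u v : V) a, (insert u (insert v (X a))).card ≤ j + 1 + (j + 1) := fun u v a => by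
    have := Finset.card_insert_le u (insert v (X a))
    have := Finset.card_insert_le v (X a)
    have := hX a
    omega
  rcases e with ⟨ε, s, i⟩ | ⟨δ, i⟩ | u | ⟨s, i⟩
  · exact (Finset.card_union_le _ _).trans (Nat.add_le_add (ci _ _) (ci _ _))
  · exact (Finset.card_union_le _ _).trans (Nat.add_le_add (ci _ _) (ci _ _))
  · exact cx _ _ _
  · exact cx _ _ _

end Shape

/-- the edges of the wheel hypergraph -/
noncomputable def edge (j N : ℕ) : EL N → Finset (VL j N) :=
  shape (fun a => univ.image fun i => .inl (a, i)) (fun ε => .inr (.inl ε))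
    (fun s i => .inr (.inr (.inl (s, i)))) (fun J => univ.image fun i => .inr (.inr (.inr (J, i))))

theorem exists_fun_image {V : Type*} [DecidableEq V] {j : ℕ} (C : Finset V) (h : C.card = j) :
    ∃ f : Fin j → V, univ.image f = C := by
  refine ⟨fun i => ((C.equivFinOfCardEq h).symm i : V), ?_⟩
  ext v
  simp only [mem_image, mem_univ, true_and]
  constructor
  · rintro ⟨i, rfl⟩; exact Subtype.prop _
  · intro hv; exact ⟨C.equivFinOfCardEq h ⟨v, hv⟩, by simp⟩

theorem hom_of_dense (h : ℕ) (hh : 10000 ≤ h) (t : ℕ) (G : Finset (Finset (Fin t)))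
    (hG : ∀ e ∈ G, e.card = (2 * h + 2) + (2 * h + 2))
    (hd : (t : ℝ) ^ ((2 * h + 2) + (2 * h + 2)) / 2 <
      (((2 * h + 2) + (2 * h + 2)).factorial : ℝ) * G.card) (ht : 0 < t) :
    ∃ φ : VL (2 * h + 1) (t ^ 2).factorial → Fin t, ∀ e, (edge _ _ e).image φ ∈ G := by
  have htR : (0 : ℝ) < t := by exact_mod_cast ht
  obtain ⟨y, y0, y1, y2, y3⟩ := symmetrise G (fun _ => 1 / (t : ℝ)) (fun _ => by positivity)
    (by simp; field_simp)
  have e1 : ∑ e ∈ G, ∏ _v ∈ e, 1 / (t : ℝ) = G.card / (t : ℝ) ^ ((2 * h + 2) + (2 * h + 2)) := by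
    rw [Finset.sum_congr rfl (g := fun _ => 1 / (t : ℝ) ^ ((2 * h + 2) + (2 * h + 2)))
      fun e he => by rw [Finset.prod_const, hG e he, one_div_pow]]
    rw [Finset.sum_const, nsmul_eq_mul, mul_one_div]
  obtain ⟨C, U, W, b, b', hC, hU, hW, hbb, hb, hb', R, hne, hR, hdeg⟩ :=
    upper h hh G hG y y0 y1 (by
      refine lt_of_lt_of_le ?_ (mul_le_mul_of_nonneg_left y2 (Nat.cast_nonneg _))
      rw [e1, ← mul_div_assoc, lt_div_iff₀ (by positivity)]
      linarith)
  obtain ⟨a1, a2, hw⟩ := exists_walk R hne hdeg (t ^ 2) (by simp)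
  have cards : C.card = 2 * h + 1 ∧ U.card = 2 * h + 1 ∧ W.card = 2 * h + 1 := by
    obtain ⟨r1, -, r3, -, -⟩ := (hR _ (hw 0).1).2.2
    have c1 := hG _ r1
    have c3 := hG _ r3
    have := Finset.card_union_le (insert b C) (insert (a1 0) U)
    have := Finset.card_union_le (insert b C) (insert (a2 0) W)
    have := Finset.card_insert_le b C
    have := Finset.card_insert_le (a1 0) U
    have := Finset.card_insert_le (a2 0) W
    simp only at c1 c3
    omega
  have cov : ∀ u v, u ≠ v → 0 < y u → 0 < y v → ∃ f : Fin (2 * h + 1 + (2 * h + 1)) → Fin t,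
      insert u (insert v (univ.image f)) ∈ G := by
    intro u v huv hu hv
    obtain ⟨e, he, h1, h2⟩ := y3 u v huv hu hv
    have h3 : v ∈ e.erase u := mem_erase.2 ⟨huv.symm, h2⟩
    obtain ⟨f, hf⟩ := exists_fun_image ((e.erase u).erase v) (j := 2 * h + 1 + (2 * h + 1)) (by
      rw [Finset.card_erase_of_mem h3, Finset.card_erase_of_mem h1, hG e he]; omega)
    exact ⟨f, by rw [hf, Finset.insert_erase h3, Finset.insert_erase h1]; exact he⟩
  let ρ : Bool → ZMod (t ^ 2).factorial → Fin t := fun s => if s then a2 else a1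
  have ρpos : ∀ s i, 0 < y (ρ s i) := fun s i => by
    cases s
    · exact (hR _ (hw i).1).1
    · exact (hR _ (hw i).1).2.1
  have ρne : ∀ s i, ρ s (i + 1) ≠ ρ s i := fun s i => by
    cases s
    · exact (hw i).2.2.1
    · exact (hw i).2.2.2
  obtain ⟨f0, hf0⟩ := cov b b' hbb hb hb'
  choose f1 hf1 using fun p : Bool × ZMod (t ^ 2).factorial =>
    cov _ _ (ρne p.1 p.2) (ρpos _ _) (ρpos _ _)
  obtain ⟨gC, hgC⟩ := exists_fun_image C cards.1
  obtain ⟨gU, hgU⟩ := exists_fun_image U cards.2.1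
  obtain ⟨gW, hgW⟩ := exists_fun_image W cards.2.2
  refine ⟨Sum.elim (fun p => ![gC, gU, gW] p.1 p.2) (Sum.elim (fun ε => if ε then b' else b)
    (Sum.elim (fun p => ρ p.1 p.2) (fun p => Sum.elim (fun _ => f0) f1 p.1 p.2))), fun e => ?_⟩
  rw [edge, shape_image]
  simp only [Finset.image_image, Function.comp_def, Sum.elim_inl, Sum.elim_inr]
  rcases e with ⟨ε, s, i⟩ | ⟨δ, i⟩ | u | ⟨s, i⟩
  · obtain ⟨r1, r2, r3, r4, -⟩ := (hR _ (hw i).1).2.2
    rw [← hgC, ← hgU] at r1 r2
    rw [← hgC, ← hgW] at r3 r4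
    cases ε <;> cases s
    exacts [r1, r3, r2, r4]
  · have r1 := (hR _ (hw i).1).2.2.2.2.2.2
    have r2 := (hR _ (hw i).2.1).2.2.2.2.2.2
    rw [← hgU, ← hgW] at r1 r2
    cases δ
    exacts [r1, r2]
  · exact hf0
  · exact hf1 (s, i)

theorem no_hom (j N r : ℕ) (hN : 0 < N) :
    ¬ ∃ φ : VL j N → VV (j + 1 + (j + 1)) r (2 * N + 4),
      ∀ e, (edge j N e).image φ ∈ GG (j + 1 + (j + 1)) r (2 * N + 4) := by
  rintro ⟨φ, hφ⟩
  simp only [edge, shape_image] at hφ
  have cB : ∀ a : Fin 3, ((univ.image fun i => (Sum.inl (a, i) : VL j N)).image φ).card ≤ j :=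
    fun a => Finset.card_image_le.trans (Finset.card_image_le.trans (by simp))
  have ne : ∀ (u v : VV (j + 1 + (j + 1)) r (2 * N + 4)) (J : Unit ⊕ Bool × ZMod N),
      insert u (insert v ((univ.image fun i => (Sum.inr (.inr (.inr (J, i))) : VL j N)).image φ)) ∈
        GG (j + 1 + (j + 1)) r (2 * N + 4) → u ≠ v := by
    intro u v J h huv
    have c1 := (mem_GG.1 h).1
    rw [huv, Finset.insert_eq_of_mem (mem_insert_self _ _)] at c1
    have c2 := Finset.card_insert_le v
      ((univ.image fun i => (Sum.inr (.inr (.inr (J, i))) : VL j N)).image φ)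
    have c3 : ((univ.image fun i => (Sum.inr (.inr (.inr (J, i))) : VL j N)).image φ).card ≤
      j + j := Finset.card_image_le.trans (Finset.card_image_le.trans (by simp))
    omega
  refine no_config (N := N) hN (by omega) (by omega) _ _ _ (cB 0) (cB 1) (cB 2)
    (φ (.inr (.inl false))) (φ (.inr (.inl true))) (ne _ _ _ (hφ (.inr (.inr (.inl ())))))
    (fun i => φ (.inr (.inr (.inl (false, (i : ZMod N))))))
    (fun i => φ (.inr (.inr (.inl (true, (i : ZMod N)))))) (fun i => ?_) (fun i => ?_)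
    (fun i => ?_) (fun i => ?_) (by simp)
  · exact ⟨hφ (.inl (false, false, i)), hφ (.inl (true, false, i)), hφ (.inl (false, true, i)),
      hφ (.inl (true, true, i)), hφ (.inr (.inl (false, i)))⟩
  · simp only [Nat.cast_succ]
    exact ⟨hφ (.inl (false, false, i)), hφ (.inl (true, false, i)),
      hφ (.inl (false, true, i + 1)), hφ (.inl (true, true, i + 1)), hφ (.inr (.inl (true, i)))⟩
  · simp only [Nat.cast_succ]
    exact ne _ _ _ (hφ (.inr (.inr (.inr (false, i)))))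
  · simp only [Nat.cast_succ]
    exact ne _ _ _ (hφ (.inr (.inr (.inr (true, i)))))

theorem exists_density (h : ℕ) (hh : 10000 ≤ h) (η : ℝ) (hη : 0 < η) (hη' : η ≤ 1 / 2) :
    ∃ (m : ℕ) (L : Finset (Finset (Fin m))), (∀ e ∈ L, e.card = (2 * h + 2) + (2 * h + 2)) ∧
      ∃ d : ℝ, Filter.Tendsto (fun n : ℕ => (ex ((2 * h + 2) + (2 * h + 2)) L n : ℝ) /
        (n.choose ((2 * h + 2) + (2 * h + 2)) : ℝ)) Filter.atTop (nhds d) ∧
        1 / 2 < d ∧ d ≤ 1 / 2 + η := by
  classical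
  set k := (2 * h + 2) + (2 * h + 2) with hk
  obtain ⟨t, ht1, ht2⟩ := ((tendsto_natCast_atTop_atTop (R := ℝ)).eventually
    (Filter.eventually_gt_atTop ((k : ℝ) ^ 2 / η))).and (Filter.eventually_ge_atTop k) |>.exists
  have ht0 : 0 < t := by omega
  have htR : (0 : ℝ) < t := by exact_mod_cast ht0
  set N := (t ^ 2).factorial with hN
  have hN0 : 0 < N := Nat.factorial_pos _
  have : NeZero N := ⟨hN0.ne'⟩
  let eqv := Fintype.equivFin (VL (2 * h + 1) N)
  let L : Finset (Finset (Fin (Fintype.card (VL (2 * h + 1) N)))) :=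
    univ.image fun e => (edge (2 * h + 1) N e).image eqv
  have hall : ∀ G : Finset (Finset (Fin t)), (∀ e ∈ G, e.card = k) →
      (1 / 2 + η) * t.choose k ≤ G.card → ∃ φ : Fin _ → Fin t, ∀ e ∈ L, e.image φ ∈ G := by
    intro G hG hd
    obtain ⟨φ, hφ⟩ := hom_of_dense h hh t G hG (by
      have b1 := desc_ge t k
      rw [Nat.descFactorial_eq_factorial_mul_choose] at b1
      push_cast at b1
      rw [div_lt_iff₀ hη] at ht1
      have b2 : (0 : ℝ) < k.factorial := by exact_mod_cast k.factorial_pos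
      have b3 := mul_le_mul_of_nonneg_left hd (mul_pos htR b2).le
      have b4 := mul_le_mul_of_nonneg_left b1 (by linarith : 0 ≤ 1 / 2 + η)
      have b5 : (t : ℝ) / 2 < (1 / 2 + η) * (t - k ^ 2) := by nlinarith [sq_nonneg (k : ℝ)]
      have b6 := mul_lt_mul_of_pos_left b5 (pow_pos htR k)
      refine lt_of_mul_lt_mul_left ?_ htR.le
      nlinarith) ht0
    refine ⟨fun v => φ (eqv.symm v), fun e he => ?_⟩
    obtain ⟨e, -, rfl⟩ := mem_image.1 he
    rw [Finset.image_image]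
    simpa [Function.comp_def] using hφ e
  have hL : ∀ e ∈ L, e.card = k := by
    obtain ⟨φ, hφ⟩ := hall (univ.powersetCard k) (fun e he => (mem_powersetCard.1 he).2) (by
      simp only [card_powersetCard, card_univ, Fintype.card_fin]
      exact mul_le_of_le_one_left (Nat.cast_nonneg _) (by linarith))
    intro e he
    refine le_antisymm ?_ ((mem_powersetCard.1 (hφ e he)).2.symm.le.trans Finset.card_image_le)
    obtain ⟨e, -, rfl⟩ := mem_image.1 he
    refine Finset.card_image_le.trans ?_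
    unfold edge
    exact shape_card (j := 2 * h + 1) _ _ _ _
      (fun a => Finset.card_image_le.trans (by simp))
      (fun a => Finset.card_image_le.trans (by simp)) e
  obtain ⟨d, hd⟩ := ratio_tendsto k L
  refine ⟨_, L, hL, d, hd, ?_, upper_bound Fintype.card_pos hL t ht2 _ (by linarith) hall d hd⟩
  obtain ⟨r, hr⟩ : ∃ r, (2 * h + 2 + (2 * h + 1) + 1) ^ 2 *
    (2 * (2 * h + 2 + (2 * h + 1) + 1)) ^ (2 * h + 2 + (2 * h + 1)) < r := ⟨_, Nat.lt_succ_self _⟩
  have c1 := count_GG (2 * h + 2 + (2 * h + 1)) (2 * N + 4) (by omega) r hr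
  refine c1.trans_le (lower_bound (k := k) (L := L) (GG k r (2 * N + 4))
    (fun e he => (mem_GG.1 he).1) ?_ d hd)
  rintro ⟨φ, hφ⟩
  refine no_hom (2 * h + 1) N r hN0 ⟨fun v => φ (eqv v), fun e => ?_⟩
  have := hφ _ (mem_image_of_mem _ (mem_univ e))
  rw [Finset.image_image] at this
  exact this

theorem not_wf (h : ℕ) (hh : 10000 ≤ h) (S : Set ℝ) (hS : S.IsWF)
    (H : ∀ m : ℕ, ∀ L : Finset (Finset (Fin m)), (∀ e ∈ L, e.card = (2 * h + 2) + (2 * h + 2)) →
      ∀ d : ℝ, Filter.Tendsto (fun n : ℕ => (ex ((2 * h + 2) + (2 * h + 2)) L n : ℝ) /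
        (n.choose ((2 * h + 2) + (2 * h + 2)) : ℝ)) Filter.atTop (nhds d) → d = 0 ∨ d ∈ S) :
    False := by
  have key : ∀ η : ℝ, 0 < η → η ≤ 1 / 2 → ∃ d ∈ S, 1 / 2 < d ∧ d ≤ 1 / 2 + η := by
    intro η h1 h2
    obtain ⟨m, L, hL, d, hd, d1, d2⟩ := exists_density h hh η h1 h2
    rcases H m L hL d hd with h0 | h0
    · linarith
    · exact ⟨d, h0, d1, d2⟩
  have hT : (S ∩ Set.Ioi (1 / 2)).IsWF := hS.mono Set.inter_subset_left
  have hne : (S ∩ Set.Ioi (1 / 2)).Nonempty := by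
    obtain ⟨d, d0, d1, -⟩ := key (1 / 2) (by norm_num) le_rfl
    exact ⟨d, d0, d1⟩
  have m1 : 1 / 2 < hT.min hne := (hT.min_mem hne).2
  obtain ⟨d, d0, d1, d2⟩ := key (min (1 / 2) ((hT.min hne - 1 / 2) / 2))
    (lt_min (by norm_num) (by linarith)) (min_le_left _ _)
  have := min_le_right (1 / 2 : ℝ) ((hT.min hne - 1 / 2) / 2)
  exact hT.not_lt_min hne ⟨d0, d1⟩ (by linarith)

end Pool.Agent.H255Z.WO
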