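import Pool.Agent.H255Z.WO.Book

/-! The upper bound: a weighted `(4h+4)`-graph of density above one half carries a two-centre
wheel relation of minimum degree two. -/

namespace Pool.Agent.H255Z.WO

open Finset

variable {V : Type*} [Fintype V] [DecidableEq V]

/-- probability that `j` independent samples are distinct and form the set `A` -/
noncomputable def wt (x : V → ℝ) (j : ℕ) (A : Finset V) : ℝ :=
  if A.card = j then (j.factorial : ℝ) * ∏ v ∈ A, x v else 0

omit [Fintype V] [DecidableEq V] in
theorem wt_nonneg {x : V → ℝ} (hx : ∀ v, 0 ≤ x v) (j : ℕ) (A : Finset V) : 0 ≤ wt x j A := by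
  unfold wt
  split_ifs
  · exact mul_nonneg (Nat.cast_nonneg _) (Finset.prod_nonneg fun v _ => hx v)
  · exact le_rfl

theorem wt_succ (x : V → ℝ) (j : ℕ) (F : Finset V → ℝ) :
    ∑ A, wt x (j + 1) A * F A =
      ∑ B, ∑ v, wt x j B * x v * (if v ∈ B then 0 else F (insert v B)) := by
  have h1 : ∀ A : Finset V, wt x (j + 1) A * F A =
      ∑ v, if v ∈ A then (if A.card = j + 1 then (j.factorial : ℝ) * (∏ v ∈ A, x v) * F A else 0)
        else 0 := by
    intro A
    rw [Finset.sum_ite_mem, Finset.univ_inter, Finset.sum_const, nsmul_eq_mul]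
    unfold wt
    split_ifs with h
    · rw [h, Nat.factorial_succ]; push_cast; ring
    · simp
  rw [Finset.sum_congr rfl fun A _ => h1 A, Finset.sum_comm, Finset.sum_comm (s := univ) (t := univ)
    (f := fun B v => wt x j B * x v * (if v ∈ B then 0 else F (insert v B)))]
  refine Finset.sum_congr rfl fun v _ => ?_
  have h2 : ∀ B : Finset V, wt x j B * x v * (if v ∈ B then 0 else F (insert v B)) =
      if v ∉ B then wt x j B * x v * F (insert v B) else 0 := by
    intro B
    by_cases h : v ∈ B <;> simp [h]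
  rw [Finset.sum_congr rfl fun B _ => h2 B, ← Finset.sum_filter (fun A : Finset V => v ∈ A),
    ← Finset.sum_filter (fun A : Finset V => v ∉ A)]
  symm
  refine Finset.sum_nbij' (fun B => insert v B) (fun A => A.erase v) ?_ ?_ ?_ ?_ ?_
  · intro B _; simp
  · intro A _; simp
  · intro B hB
    have hB' : v ∉ B := by simpa using hB
    exact Finset.erase_insert hB'
  · intro A hA
    have hA' : v ∈ A := by simpa using hA
    exact Finset.insert_erase hA'
  · intro B hB
    have hB' : v ∉ B := by simpa using hB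
    rw [Finset.card_insert_of_notMem hB', Finset.prod_insert hB']
    unfold wt
    by_cases h : B.card = j
    · rw [if_pos h, if_pos (by rw [h])]; ring
    · rw [if_neg h, if_neg (by omega)]; ring

theorem wt_succ_le {x : V → ℝ} (hx : ∀ v, 0 ≤ x v) (j : ℕ) (F : Finset V → ℝ)
    (hF : ∀ A, 0 ≤ F A) :
    ∑ A, wt x (j + 1) A * F A ≤ ∑ B, ∑ v, wt x j B * x v * F (insert v B) := by
  rw [wt_succ]
  refine Finset.sum_le_sum fun B _ => Finset.sum_le_sum fun v _ => ?_
  refine mul_le_mul_of_nonneg_left ?_ (mul_nonneg (wt_nonneg hx _ _) (hx _))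
  split_ifs
  · exact hF _
  · exact le_rfl

theorem wt_zero (x : V → ℝ) (F : Finset V → ℝ) : ∑ A, wt x 0 A * F A = F ∅ := by
  rw [Finset.sum_eq_single ∅]
  · simp [wt]
  · intro A _ hA
    rw [wt, if_neg (by rwa [Finset.card_eq_zero])]; simp
  · simp

theorem wt_total {x : V → ℝ} (hx : ∀ v, 0 ≤ x v) (h1 : ∑ v, x v = 1) (j : ℕ) :
    ∑ A, wt x j A ≤ 1 := by
  induction j with
  | zero => simpa using (wt_zero x (fun _ => 1)).le
  | succ j ih =>
    have := wt_succ_le hx j (fun _ => 1) (fun _ => zero_le_one)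
    simp only [mul_one, ← Finset.mul_sum, h1] at this
    exact this.trans ih

theorem wt_total2 {x : V → ℝ} (hx : ∀ v, 0 ≤ x v) (h1 : ∑ v, x v = 1) (j : ℕ) :
    ∑ A, wt x (j + 2) A ≤ (1 - ∑ v, x v ^ 2) * ∑ A, wt x j A := by
  have h2 := wt_succ x (j + 1) (fun _ => 1)
  simp only [mul_one] at h2
  rw [h2]
  have h3 := wt_succ_le hx j (fun B => ∑ v, x v * (if v ∈ B then 0 else 1))
    (fun B => Finset.sum_nonneg fun v _ => mul_nonneg (hx v) (by split_ifs <;> norm_num))
  simp only [mul_assoc, ← Finset.mul_sum] at h3 ⊢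
  refine h3.trans ?_
  rw [mul_comm, Finset.sum_mul]
  refine Finset.sum_le_sum fun B _ => mul_le_mul_of_nonneg_left ?_ (wt_nonneg hx _ _)
  have h4 : ∀ u, x u * ∑ v, x v * (if v ∈ insert u B then (0 : ℝ) else 1) ≤ x u - x u ^ 2 := by
    intro u
    have h5 : ∑ v, x v * (if v ∈ insert u B then (0 : ℝ) else 1) ≤ 1 - x u := by
      have h6 : ∑ v, x v * (if v ∈ insert u B then (0 : ℝ) else 1) ≤
          ∑ v, (x v - if v = u then x v else 0) := by
        refine Finset.sum_le_sum fun v _ => ?_
        have := hx v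
        by_cases h : v = u
        · simp [h]
        · rw [if_neg h]
          split_ifs <;> linarith
      rw [Finset.sum_sub_distrib, h1, Finset.sum_ite_eq'] at h6
      simpa using h6
    have := mul_le_mul_of_nonneg_left h5 (hx u)
    linarith
  refine (Finset.sum_le_sum fun u _ => h4 u).trans ?_
  rw [Finset.sum_sub_distrib, h1]

theorem wt_total_pow {x : V → ℝ} (hx : ∀ v, 0 ≤ x v) (h1 : ∑ v, x v = 1)
    (hs : ∑ v, x v ^ 2 ≤ 1) (j : ℕ) :
    ∑ A, wt x (2 * j) A ≤ (1 - ∑ v, x v ^ 2) ^ j := by
  induction j with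
  | zero => simpa using wt_total hx h1 0
  | succ j ih =>
    rw [show 2 * (j + 1) = 2 * j + 2 by ring, pow_succ']
    exact (wt_total2 hx h1 _).trans (mul_le_mul_of_nonneg_left ih (sub_nonneg.2 hs))

theorem wt_add (x : V → ℝ) (j i : ℕ) (F : Finset V → ℝ) :
    ∑ A, wt x i A * ∑ B, wt x j B * (if Disjoint A B then F (A ∪ B) else 0) =
      ∑ e, wt x (i + j) e * F e := by
  induction i generalizing F with
  | zero =>
    rw [wt_zero]
    simp
  | succ i ih =>
    rw [wt_succ, show i + 1 + j = i + j + 1 by ring, wt_succ, Finset.sum_comm,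
      Finset.sum_comm (s := univ) (t := univ)
        (f := fun B v => wt x (i + j) B * x v * (if v ∈ B then 0 else F (insert v B)))]
    refine Finset.sum_congr rfl fun v _ => ?_
    have h1 := ih (fun e => x v * (if v ∈ e then 0 else F (insert v e)))
    simp only [mul_assoc]
    rw [← h1]
    refine Finset.sum_congr rfl fun A _ => ?_
    congr 1
    by_cases hv : v ∈ A
    · simp [hv]
    · rw [if_neg hv, Finset.mul_sum]
      refine Finset.sum_congr rfl fun B _ => ?_
      by_cases hB : v ∈ B
      · simp [hB]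
      · by_cases hd : Disjoint A B
        · simp [hB, hv, hd]; ring
        · simp [hB, hv, hd]

theorem wt_light {x : V → ℝ} (hx : ∀ v, 0 ≤ x v) (j : ℕ) (F : Finset V → ℝ) (hF : ∀ A, 0 ≤ F A) :
    ∑ A, wt x (j + 2) A * F A ≤ 2 * ∑ B, ∑ u, wt x j B * x u *
      ∑ v, x v * (if x v ≤ x u then F (insert v (insert u B)) else 0) := by
  refine (wt_succ_le hx (j + 1) F hF).trans ?_
  have h3 := wt_succ_le hx j (fun B => ∑ v, x v * F (insert v B))
    (fun B => Finset.sum_nonneg fun v _ => mul_nonneg (hx v) (hF _))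
  simp only [mul_assoc, ← Finset.mul_sum] at h3 ⊢
  refine h3.trans ?_
  rw [Finset.mul_sum]
  refine Finset.sum_le_sum fun B _ => ?_
  rw [mul_left_comm]
  refine mul_le_mul_of_nonneg_left ?_ (wt_nonneg hx _ _)
  have h4 : ∑ u, x u * ∑ v, x v * (if x v ≤ x u then F (insert v (insert u B)) else 0) =
      ∑ u, x u * ∑ v, x v * (if x u ≤ x v then F (insert v (insert u B)) else 0) := by
    simp only [Finset.mul_sum]
    rw [Finset.sum_comm]
    refine Finset.sum_congr rfl fun u _ => Finset.sum_congr rfl fun v _ => ?_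
    rw [Finset.insert_comm]; ring
  rw [two_mul]
  nth_rewrite 1 [h4]
  simp only [Finset.mul_sum, ← Finset.sum_add_distrib]
  refine Finset.sum_le_sum fun u _ => Finset.sum_le_sum fun v _ => ?_
  have h5 : 0 ≤ x u * x v := mul_nonneg (hx _) (hx _)
  have h6 := hF (insert v (insert u B))
  have h7 := mul_nonneg h5 h6
  rcases le_total (x u) (x v) with h | h
  · rw [if_pos h]; split_ifs <;> nlinarith
  · rw [if_pos h]; split_ifs <;> nlinarith

theorem wt_light2 {x : V → ℝ} (hx : ∀ v, 0 ≤ x v) (h1 : ∑ v, x v = 1) (j : ℕ)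
    (F : Finset V → Finset V → ℝ) (hF : ∀ A B, 0 ≤ F A B)
    (hb : ∀ (B B' : Finset V) (u u' : V), B.card = j → B'.card = j →
      ∑ v, ∑ v', x v * x v' * (if x v ≤ x u ∧ x v' ≤ x u' then
        F (insert v (insert u B)) (insert v' (insert u' B')) else 0) ≤ x u + x u') :
    ∑ p, ∑ q, wt x (j + 2) p * wt x (j + 2) q * F p q ≤ 8 * ∑ v, x v ^ 2 := by
  set s := ∑ v, x v ^ 2 with hs
  have hw := wt_nonneg hx
  have hs0 : 0 ≤ s := Finset.sum_nonneg fun v _ => sq_nonneg _
  let K : Finset V → ℝ := fun p => ∑ B', ∑ u', wt x j B' * x u' *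
      ∑ v', x v' * (if x v' ≤ x u' then F p (insert v' (insert u' B')) else 0)
  have hK0 : ∀ p, 0 ≤ K p := fun p => Finset.sum_nonneg fun B _ => Finset.sum_nonneg fun u _ =>
    mul_nonneg (mul_nonneg (hw _ _) (hx _)) (Finset.sum_nonneg fun v _ => mul_nonneg (hx _) (by
      split_ifs
      · exact hF _ _
      · exact le_rfl))
  have e1 : ∑ p, ∑ q, wt x (j + 2) p * wt x (j + 2) q * F p q ≤
      2 * ∑ p, wt x (j + 2) p * K p := by
    rw [Finset.mul_sum]
    refine Finset.sum_le_sum fun p _ => ?_
    simp only [mul_assoc, ← Finset.mul_sum]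
    rw [mul_left_comm]
    exact mul_le_mul_of_nonneg_left (by
      simpa only [K, mul_assoc, ← Finset.mul_sum] using wt_light hx j (F p) (hF p)) (hw _ _)
  have e2 := wt_light hx j K hK0
  have e3 : ∀ (B : Finset V) (u : V), wt x j B * x u *
      ∑ v, x v * (if x v ≤ x u then K (insert v (insert u B)) else 0) ≤
      wt x j B * x u * (x u + s) := by
    intro B u
    by_cases hB : B.card = j
    swap
    · simp [wt, hB]
    refine mul_le_mul_of_nonneg_left ?_ (mul_nonneg (hw _ _) (hx _))
    have e4 : ∑ v, x v * (if x v ≤ x u then K (insert v (insert u B)) else 0) =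
        ∑ B', ∑ u', wt x j B' * x u' * ∑ v, ∑ v', x v * x v' * (if x v ≤ x u ∧ x v' ≤ x u' then
          F (insert v (insert u B)) (insert v' (insert u' B')) else 0) := by
      have e5 : ∀ v, x v * (if x v ≤ x u then K (insert v (insert u B)) else 0) =
          ∑ B', ∑ u', wt x j B' * x u' * ∑ v', x v * x v' * (if x v ≤ x u ∧ x v' ≤ x u' then
          F (insert v (insert u B)) (insert v' (insert u' B')) else 0) := by
        intro v
        by_cases h : x v ≤ x u
        · simp only [h, if_true, true_and, K, Finset.mul_sum]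
          refine Finset.sum_congr rfl fun B' _ => Finset.sum_congr rfl fun u' _ =>
            Finset.sum_congr rfl fun v' _ => by ring
        · simp [h]
      rw [Finset.sum_congr rfl fun v _ => e5 v, Finset.sum_comm]
      refine Finset.sum_congr rfl fun B' _ => ?_
      rw [Finset.sum_comm]
      refine Finset.sum_congr rfl fun u' _ => ?_
      rw [Finset.mul_sum]
    rw [e4]
    have e6 : ∀ (B' : Finset V) (u' : V), wt x j B' * x u' *
        ∑ v, ∑ v', x v * x v' * (if x v ≤ x u ∧ x v' ≤ x u' then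
          F (insert v (insert u B)) (insert v' (insert u' B')) else 0) ≤
        wt x j B' * (x u' * (x u + x u')) := by
      intro B' u'
      by_cases hB' : B'.card = j
      swap
      · simp [wt, hB']
      rw [← mul_assoc]
      exact mul_le_mul_of_nonneg_left (hb B B' u u' hB hB') (mul_nonneg (hw _ _) (hx _))
    refine (Finset.sum_le_sum fun B' _ => Finset.sum_le_sum fun u' _ => e6 B' u').trans ?_
    simp only [← Finset.mul_sum]
    rw [← Finset.sum_mul]
    have e7 : ∑ u', x u' * (x u + x u') = x u + s := by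
      simp only [mul_add, Finset.sum_add_distrib, ← Finset.sum_mul, h1, hs, sq, one_mul]
    rw [e7]
    have := wt_total hx h1 j
    have := hx u
    nlinarith
  have e8 : ∑ B, ∑ u, wt x j B * x u * (x u + s) ≤ 2 * s := by
    simp only [mul_assoc, ← Finset.mul_sum]
    rw [← Finset.sum_mul]
    have e7 : ∑ u, x u * (x u + s) = 2 * s := by
      simp only [mul_add, Finset.sum_add_distrib, ← Finset.sum_mul, h1, hs, sq, one_mul]
      ring
    rw [e7]
    have := wt_total hx h1 j
    nlinarith
  have e9 := (Finset.sum_le_sum fun B (_ : B ∈ univ) => Finset.sum_le_sum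
    fun u (_ : u ∈ univ) => e3 B u).trans e8
  linarith

end Pool.Agent.H255Z.WO
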